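import Pool.Agent.H24.RS.Main

/-!
# Sparse random sets and the number of progression-free sets of each size
-/

set_option autoImplicit false

namespace Pool.Agent.Results.MP_0f71ae_nt.EverySparseScale

open Finset

open Pool.Agent

/-- `A` contains no progression `a, a + d, ..., a + (k - 1) d` with `d ≥ 1`. -/
def APFree (k : ℕ) (A : Finset ℕ) : Prop :=
  ∀ a d : ℕ, 1 ≤ d → ¬ ∀ i < k, a + i * d ∈ A

open Classical in
/-- `r k N` is the largest size of a subset of `{1, ..., N}` without progressions of length `k`;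
so `r 3 N` is the function of the question. -/
noncomputable def r (k N : ℕ) : ℕ := ((Icc 1 N).powerset.filter (fun A => APFree k A)).sup card

/-- `rho k x = r k n / n` with `n = ⌊x⌋` -/
noncomputable def rho (k : ℕ) (x : ℝ) : ℝ := (r k ⌊x⌋₊ : ℝ) / ⌊x⌋₊

open Classical in
/-- the probability of `Q R` for the random subset `R` of `{1, ..., N}` which contains each element
independently with probability `p` -/
noncomputable def prob (N : ℕ) (p : ℝ) (Q : Finset ℕ → Prop) : ℝ :=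
  ∑ R ∈ (Icc 1 N).powerset.filter (fun R => Q R), p ^ R.card * (1 - p) ^ (N - R.card)

open Classical in
/-- the number of subsets of `{1, ..., N}` with `s` elements and without progressions of length `k` -/
noncomputable def count (k N s : ℕ) : ℕ :=
  (((Icc 1 N).powerset.filter (fun A => APFree k A)).filter (fun A => A.card = s)).card

theorem prob_eq (N : ℕ) (p : ℝ) (Q : Finset ℕ → Prop) :
    prob N p Q = H24.RS.randProb (Icc 1 N) p Q := by
  classical
  rw [H24.RS.randProb_eq]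
  unfold prob
  have : (Icc 1 N).card = N := by simp
  rw [this]

/-- The integer part of `exp (t ^ 2)`. -/
theorem floor_facts {t : ℝ} (ht : 1 ≤ t) : Real.exp (t ^ 2 - 1) ≤ (⌊Real.exp (t ^ 2)⌋₊ : ℝ) ∧
    t - 1 ≤ √(Real.log (⌊Real.exp (t ^ 2)⌋₊ : ℝ)) := by
  have h1 : Real.exp (t ^ 2 - 1) ≤ (⌊Real.exp (t ^ 2)⌋₊ : ℝ) := by
    have h2 := Nat.sub_one_lt_floor (Real.exp (t ^ 2))
    have h3 : Real.exp (t ^ 2) = Real.exp (t ^ 2 - 1) * Real.exp 1 := by
      rw [← Real.exp_add]; congr 1; ring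
    have h4 := Real.exp_one_gt_d9
    have h5 : 1 ≤ Real.exp (t ^ 2 - 1) := Real.one_le_exp (by nlinarith)
    nlinarith
  refine ⟨h1, ?_⟩
  apply Real.le_sqrt_of_sq_le
  have h2 := Real.log_le_log (Real.exp_pos _) h1
  rw [Real.log_exp] at h2
  nlinarith

/-- comparison of two scales -/
theorem compare {k : ℕ} (hk : 3 ≤ k) {u v t : ℝ} (ht : 1 ≤ t) (hu : 0 ≤ u) (huv : u ≤ v)
    (hv : v ≤ u + 14 * k * t) :
    H617R3.AP.d k ⌊Real.exp u⌋₊ ≤ 3 * Real.exp (4 * (15 * k * √t)) *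
      H617R3.AP.d k ⌊Real.exp v⌋₊ := by
  have hkR : (3 : ℝ) ≤ k := by exact_mod_cast hk
  have h1 : Real.exp u ≤ Real.exp 1 * (⌊Real.exp u⌋₊ : ℝ) := by
    have h2 := Nat.lt_floor_add_one (Real.exp u)
    have h3 : 1 ≤ ⌊Real.exp u⌋₊ := Nat.le_floor (by
      rw [Nat.cast_one]
      exact Real.one_le_exp hu)
    have h4 : (1 : ℝ) ≤ (⌊Real.exp u⌋₊ : ℝ) := by exact_mod_cast h3
    have h5 := Real.exp_one_gt_d9
    nlinarith
  have hn1 : 1 ≤ ⌊Real.exp u⌋₊ := Nat.le_floor (by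
      rw [Nat.cast_one]
      exact Real.one_le_exp hu)
  have hn0 : (0 : ℝ) < (⌊Real.exp u⌋₊ : ℝ) := by exact_mod_cast hn1
  refine H24.RS.d_ratio hk hn1 (Nat.floor_le_floor (Real.exp_le_exp.2 huv)) (by positivity) ?_
  rw [div_le_iff₀ hn0]
  have h2 : (15 * (k : ℝ) * √t) ^ 2 = (15 * k) ^ 2 * t := by
    rw [mul_pow, Real.sq_sqrt (by linarith)]
  rw [h2]
  calc ((⌊Real.exp v⌋₊ : ℕ) : ℝ) ≤ Real.exp v := Nat.floor_le (Real.exp_pos _).le
    _ ≤ Real.exp (((15 * k) ^ 2 * t - 1) + u) := by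
        apply Real.exp_le_exp.2
        nlinarith
    _ = Real.exp ((15 * k) ^ 2 * t - 1) * Real.exp u := by rw [Real.exp_add]
    _ ≤ Real.exp ((15 * k) ^ 2 * t - 1) * (Real.exp 1 * (⌊Real.exp u⌋₊ : ℝ)) := by gcongr
    _ = Real.exp ((15 * k) ^ 2 * t) * (⌊Real.exp u⌋₊ : ℝ) := by
        rw [← mul_assoc, ← Real.exp_add]
        congr 2
        ring

/-- the density is almost decreasing -/
theorem almost {k : ℕ} (hk : 3 ≤ k) {M n : ℕ} (hn : 1 ≤ n) (h : n ≤ M) :
    H617R3.AP.d k M ≤ 2 * H617R3.AP.d k n := by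
  have hM0 : (0 : ℝ) < M := by exact_mod_cast hn.trans h
  refine (H617R3.AP.d_le (k := k) (by omega) (M := M) (by omega) (N := n) (by omega)).trans ?_
  apply mul_le_mul_of_nonneg_right _ (H617R3.AP.d_pos hk hn).le
  have : (n : ℝ) / M ≤ 1 := by
    rw [div_le_one hM0]
    exact_mod_cast h
  linarith

theorem exp_six : (360 : ℝ) ≤ Real.exp 6 := by
  have h := Real.exp_one_gt_d9
  have e : Real.exp 6 = Real.exp 1 ^ 6 := by rw [← Real.exp_nat_mul]; norm_num
  rw [e]
  calc (360 : ℝ) ≤ 2.7 ^ 6 := by norm_num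
    _ ≤ Real.exp 1 ^ 6 := by gcongr; linarith

open Classical in
/-- **Sparse random sets and the number of progression-free sets of each size.** Let `k ≥ 3`. Sparse
subsets of `{1, ..., N}` of density `p` are compared with `rho k m = r k m / m` at the scale
`m = p ^ (k - 1) * N`. The condition `log N ≤ exp (√(log m))` means `m ≥ exp ((log log N) ^ 2)`, that
is, `p` is at least the threshold `N ^ (-1 / (k - 1))` times a factor `N ^ o(1)`.
(1) With probability at least `1 - exp (- rho k m * p * N / 5)` a `p`-random subset of `{1, ..., N}`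
has no progression-free subset with `28 * rho k (m * exp (- 7 k √(log m))) * p * N` elements.
(2) With probability at least `1 - C / (p N)` it has a progression-free subset with
`rho k m * p * N / 96` elements (for all `p` with `m ≥ 1`).
(3) For all `s ≤ r k N` the number of progression-free `s`-subsets of `{1, ..., N}` is at most
`(120 * rho k (m * exp (- 7 k √(log m))) * N / s) ^ s` and at least
`(rho k (m * exp (7 k √(log m))) * N / (384 * s)) ^ s`, where `m = (s / N) ^ (k - 1) * N`.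
(4) The values of `rho k` at these scales differ at most by a factor `exp (C (log m) ^ (1 / 4))`.
(5) At almost all scales `m` (outside a set of integers of upper logarithmic density at most `ε`)
all these values can be replaced by `rho k m`, up to a constant factor. -/
theorem result (k : ℕ) (hk : 3 ≤ k) : ∃ C : ℝ, 0 < C ∧
    -- (1)
    (∀ (N : ℕ) (p m : ℝ), 0 < p → p ≤ 1 → m = p ^ (k - 1) * N → C ≤ m →
      Real.log N ≤ Real.exp (√(Real.log m)) →
      prob N p (fun R => ∃ A ⊆ R, APFree k A ∧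
        28 * rho k (m * Real.exp (-(7 * k * √(Real.log m)))) * (p * N) ≤ (A.card : ℝ)) ≤
        Real.exp (-(rho k m * (p * N) / 5))) ∧
    -- (2)
    (∀ (N : ℕ) (p m : ℝ), 0 < p → p ≤ 1 → m = p ^ (k - 1) * N → 1 ≤ m →
      prob N p (fun R => ∀ A ⊆ R, APFree k A → (A.card : ℝ) < rho k m / 96 * (p * N)) ≤
        C / (p * N)) ∧
    -- (3)
    (∀ (N s : ℕ) (m : ℝ), 1 ≤ s → s ≤ r k N → m = ((s : ℝ) / N) ^ (k - 1) * N → C ≤ m →
      Real.log N ≤ Real.exp (√(Real.log m)) →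
      (rho k (m * Real.exp (7 * k * √(Real.log m))) * N / (384 * s)) ^ s ≤ (count k N s : ℝ) ∧
      (count k N s : ℝ) ≤
        (120 * rho k (m * Real.exp (-(7 * k * √(Real.log m)))) * N / s) ^ s) ∧
    -- (4)
    (∀ m : ℝ, C ≤ m →
      rho k (m * Real.exp (-(7 * k * √(Real.log m)))) ≤ Real.exp (C * √(√(Real.log m))) * rho k m ∧
      rho k m ≤ Real.exp (C * √(√(Real.log m))) * rho k (m * Real.exp (7 * k * √(Real.log m)))) ∧
    -- (5)
    (∀ ε : ℝ, 0 < ε → ∃ (Λ B : ℝ) (E : Set ℕ), 1 ≤ Λ ∧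
      (∀ x : ℕ, 1 ≤ x → ∑ n ∈ (Icc 1 x).filter (fun n => n ∈ E), (1 : ℝ) / n ≤
        ε * Real.log x + B) ∧
      (∀ (N : ℕ) (p m : ℝ), 0 < p → p ≤ 1 → m = p ^ (k - 1) * N → Λ ≤ m → ⌊m⌋₊ ∉ E →
        Real.log N ≤ Real.exp (√(Real.log m)) →
        prob N p (fun R => ∃ A ⊆ R, APFree k A ∧ Λ * rho k m * (p * N) ≤ (A.card : ℝ)) ≤
          Real.exp (-(rho k m * (p * N) / 5))) ∧
      (∀ (N s : ℕ) (m : ℝ), 1 ≤ s → s ≤ r k N → m = ((s : ℝ) / N) ^ (k - 1) * N → Λ ≤ m →
        ⌊m⌋₊ ∉ E → Real.log N ≤ Real.exp (√(Real.log m)) →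
        (rho k m * N / (Λ * s)) ^ s ≤ (count k N s : ℝ) ∧
        (count k N s : ℝ) ≤ (Λ * rho k m * N / s) ^ s)) := by
  have hkR : (3 : ℝ) ≤ k := by exact_mod_cast hk
  obtain ⟨t₁, hupper⟩ := H24.RS.upper hk
  obtain ⟨t₂, hlower⟩ := H24.RS.lower hk
  have hρ : ∀ t : ℝ, rho k (Real.exp t) = H617R3.AP.d k ⌊Real.exp t⌋₊ := fun t => rfl
  have hcount : ∀ N s, count k N s = H24.RS.nfree k N s := fun N s => rfl
  have hfl : ∀ t : ℝ, 0 ≤ t → 1 ≤ ⌊Real.exp t⌋₊ := fun t ht => Nat.le_floor (by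
      rw [Nat.cast_one]
      exact Real.one_le_exp ht)
  have hρp : ∀ t : ℝ, 0 ≤ t → 0 < H617R3.AP.d k ⌊Real.exp t⌋₊ := fun t ht =>
    H617R3.AP.d_pos hk (hfl t ht)
  have hρ0 : ∀ t : ℝ, 0 ≤ H617R3.AP.d k ⌊Real.exp (t ^ 2)⌋₊ := fun t => by
    unfold H617R3.AP.d
    positivity
  -- the change of variables
  have hvar : ∀ (T m : ℝ), 0 ≤ T → Real.exp (T ^ 2) ≤ m → T ≤ √(Real.log m) ∧
      m = Real.exp (√(Real.log m) ^ 2) := by
    intro T m hT hm
    have hm0 : 0 < m := (Real.exp_pos _).trans_le hm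
    have h1 : T ^ 2 ≤ Real.log m := by
      rw [Real.le_log_iff_exp_le hm0]
      exact hm
    refine ⟨Real.le_sqrt_of_sq_le h1, ?_⟩
    rw [Real.sq_sqrt ((sq_nonneg T).trans h1), Real.exp_log hm0]
  obtain ⟨T, hT⟩ : ∃ T : ℝ, T = max (max t₁ t₂) (max (7 * (k : ℝ)) ((60 * (k : ℝ) + 7) ^ 2)) :=
    ⟨_, rfl⟩
  have hT1 : t₁ ≤ T := by rw [hT]; exact (le_max_left _ _).trans (le_max_left _ _)
  have hT2 : t₂ ≤ T := by rw [hT]; exact (le_max_right _ _).trans (le_max_left _ _)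
  have hT5 : 7 * (k : ℝ) ≤ T := by rw [hT]; exact (le_max_left _ _).trans (le_max_right _ _)
  have hT3 : 1 ≤ T := by linarith
  have hT4 : (60 * (k : ℝ) + 7) ^ 2 ≤ T := by
    rw [hT]; exact (le_max_right _ _).trans (le_max_right _ _)
  obtain ⟨C, hC⟩ : ∃ C : ℝ, C = max (60 * (k : ℝ) + 6) (max (4 * (k : ℝ) ^ 4 + 8)
    (Real.exp (T ^ 2))) := ⟨_, rfl⟩
  have hC1 : 60 * (k : ℝ) + 6 ≤ C := by rw [hC]; exact le_max_left _ _
  have hC2 : 4 * (k : ℝ) ^ 4 + 8 ≤ C := by
    rw [hC]; exact (le_max_left _ _).trans (le_max_right _ _)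
  have hC3 : Real.exp (T ^ 2) ≤ C := by
    rw [hC]; exact (le_max_right _ _).trans (le_max_right _ _)
  have hC0 : 0 < C := by linarith
  -- the scale below
  have hbelow : ∀ t : ℝ, T ≤ t → ∀ M : ℕ, 1 ≤ M → Real.exp (t ^ 2 - (6 * k + 1) * t) ≤ M →
      (M : ℝ) ≤ Real.exp (t ^ 2) → H617R3.AP.d k M ≤
        2 * H617R3.AP.d k ⌊Real.exp (t ^ 2 - 7 * k * t)⌋₊ := by
    intro t ht M hM1 hM2 _
    refine almost hk (hfl _ (by nlinarith)) ?_
    have h1 : ((⌊Real.exp (t ^ 2 - 7 * k * t)⌋₊ : ℕ) : ℝ) ≤ M := by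
      refine (Nat.floor_le (Real.exp_pos _).le).trans (le_trans ?_ hM2)
      apply Real.exp_le_exp.2
      nlinarith
    exact_mod_cast h1
  refine ⟨C, hC0, ?_, ?_, ?_, ?_, ?_⟩
  · -- (1)
    intro N p m hp0 hp1 hm hCm hlog
    obtain ⟨htT, hmt⟩ := hvar T m (by linarith) (hC3.trans hCm)
    obtain ⟨t, ht⟩ : ∃ t : ℝ, t = √(Real.log m) := ⟨_, rfl⟩
    rw [← ht] at htT hmt hlog ⊢
    have ht1 : 1 ≤ t := hT3.trans htT
    have hd0 := hρp (t ^ 2) (by positivity)
    have hd1 := hρp (t ^ 2 - 7 * k * t) (by nlinarith)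
    obtain ⟨h1, -⟩ := hupper N p t (2 * H617R3.AP.d k ⌊Real.exp (t ^ 2 - 7 * k * t)⌋₊ /
      H617R3.AP.d k ⌊Real.exp (t ^ 2)⌋₊) hp0 hp1
      (hT1.trans htT) (by rw [← hm, ← hmt]) hlog (by positivity)
      (fun M hM1 hM2 hM3 => by
        rw [div_mul_cancel₀ _ hd0.ne']
        exact hbelow t htT M hM1 hM2 hM3)
    rw [prob_eq]
    have e1 : m * Real.exp (-(7 * k * t)) = Real.exp (t ^ 2 - 7 * k * t) := by
      rw [hmt, ← Real.exp_add]; congr 1
    rw [e1, hρ]
    have e2 : rho k m = H617R3.AP.d k ⌊Real.exp (t ^ 2)⌋₊ := by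
      conv_lhs => rw [hmt]
      rfl
    rw [e2]
    refine le_trans (H24.RS.randProb_mono hp0.le hp1 ?_) h1
    rintro S - ⟨A, hA, hA1, hA2⟩
    refine ⟨A, hA, hA1, le_trans (le_of_eq ?_) hA2⟩
    field_simp
    ring
  · -- (2)
    intro N p m hp0 hp1 hm hm1
    have hN1 : 1 ≤ N := by
      rcases Nat.eq_zero_or_pos N with h0 | h0
      · exfalso
        rw [h0] at hm
        simp only [Nat.cast_zero, mul_zero] at hm
        linarith
      · exact h0
    have h1 := H24.RS.low' (k := k) (N := N) (p := p) hk hN1 hp0 hp1 (by rw [← hm]; exact hm1)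
    rw [← hm] at h1
    rw [prob_eq]
    have hN0 : (0 : ℝ) < N := by exact_mod_cast hN1
    have hpN : 0 < p * N := by positivity
    refine le_trans h1 ?_
    gcongr
  · -- (3)
    intro N s m hs hsr hm hCm hlog
    obtain ⟨htT, hmt⟩ := hvar T m (by linarith) (hC3.trans hCm)
    obtain ⟨t, ht⟩ : ∃ t : ℝ, t = √(Real.log m) := ⟨_, rfl⟩
    rw [← ht] at htT hmt hlog ⊢
    have ht1 : 1 ≤ t := hT3.trans htT
    have ht0 : 0 ≤ t := by linarith
    have hst : 1 ≤ √t := by rwa [Real.one_le_sqrt]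
    have hss : √t * √t = t := Real.mul_self_sqrt ht0
    have hs0 : (0 : ℝ) < s := by exact_mod_cast hs
    have hsN : s ≤ N := hsr.trans (H617R3.AP.r_le_self k N)
    have hN0 : (0 : ℝ) < N := by exact_mod_cast hs.trans hsN
    have hsq : 60 * (k : ℝ) + 7 ≤ √t := Real.le_sqrt_of_sq_le (hT4.trans htT)
    have hd0 := hρp (t ^ 2) (by positivity)
    have hd1 := hρp (t ^ 2 - 7 * k * t) (by nlinarith)
    have hd2 := hρp (t ^ 2 + 7 * k * t) (by positivity)
    have e1 : m * Real.exp (-(7 * k * t)) = Real.exp (t ^ 2 - 7 * k * t) := by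
      rw [hmt, ← Real.exp_add]; congr 1
    have e2 : m * Real.exp (7 * k * t) = Real.exp (t ^ 2 + 7 * k * t) := by
      rw [hmt, ← Real.exp_add]
    rw [hcount, e1, e2, hρ, hρ]
    constructor
    · have hcmp := compare hk ht1 (u := t ^ 2) (v := t ^ 2 + 7 * k * t) (by positivity)
        (by nlinarith) (by nlinarith)
      have h1 := hlower N s t (2 * H617R3.AP.d k ⌊Real.exp (t ^ 2)⌋₊ /
        H617R3.AP.d k ⌊Real.exp (t ^ 2 + 7 * k * t)⌋₊) hs hsr (hT2.trans htT)
        (by rw [← hm, ← hmt]) (by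
          rw [le_div_iff₀ hd2, one_mul]
          exact almost hk (hfl _ (by positivity)) (Nat.floor_le_floor (Real.exp_le_exp.2 (by
            nlinarith)))) (by
          rw [mul_div_assoc', div_le_iff₀ hd2]
          have h2 : 96 * 2 * (3 * Real.exp (4 * (15 * k * √t))) ≤ Real.exp t := by
            calc 96 * 2 * (3 * Real.exp (4 * (15 * k * √t))) =
                  576 * Real.exp (4 * (15 * k * √t)) := by ring
              _ ≤ Real.exp 7 * Real.exp (4 * (15 * k * √t)) := by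
                  have h6 := exp_six
                  have h7 : (576 : ℝ) ≤ Real.exp 7 := by
                    have e7 : Real.exp 7 = Real.exp 6 * Real.exp 1 := by
                      rw [← Real.exp_add]; norm_num
                    rw [e7]
                    have := Real.exp_one_gt_d9
                    nlinarith
                  gcongr
              _ = Real.exp (7 + 4 * (15 * k * √t)) := by rw [Real.exp_add]
              _ ≤ Real.exp t := by
                  apply Real.exp_le_exp.2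
                  nlinarith
          calc 96 * (2 * H617R3.AP.d k ⌊Real.exp (t ^ 2)⌋₊) ≤
                96 * (2 * (3 * Real.exp (4 * (15 * k * √t)) *
                  H617R3.AP.d k ⌊Real.exp (t ^ 2 + 7 * k * t)⌋₊)) := by gcongr
            _ = (96 * 2 * (3 * Real.exp (4 * (15 * k * √t)))) *
                  H617R3.AP.d k ⌊Real.exp (t ^ 2 + 7 * k * t)⌋₊ := by ring
            _ ≤ Real.exp t * H617R3.AP.d k ⌊Real.exp (t ^ 2 + 7 * k * t)⌋₊ := by gcongr)
        (fun M hM1 hM2 => by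
          rw [div_mul_eq_mul_div, le_div_iff₀ hd2]
          have h2 : H617R3.AP.d k ⌊Real.exp (t ^ 2 + 7 * k * t)⌋₊ ≤ 2 * H617R3.AP.d k M := by
            refine almost hk ((hfl _ (by positivity)).trans hM1) (Nat.le_floor (hM2.trans ?_))
            apply Real.exp_le_exp.2
            nlinarith
          calc H617R3.AP.d k ⌊Real.exp (t ^ 2)⌋₊ *
                H617R3.AP.d k ⌊Real.exp (t ^ 2 + 7 * k * t)⌋₊ ≤
                H617R3.AP.d k ⌊Real.exp (t ^ 2)⌋₊ * (2 * H617R3.AP.d k M) := by gcongr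
            _ = 2 * H617R3.AP.d k ⌊Real.exp (t ^ 2)⌋₊ * H617R3.AP.d k M := by ring)
      refine le_trans (le_of_eq ?_) h1
      congr 1
      field_simp
      ring
    · obtain ⟨-, h1⟩ := hupper N ((s : ℝ) / N) t
        (2 * H617R3.AP.d k ⌊Real.exp (t ^ 2 - 7 * k * t)⌋₊ /
          H617R3.AP.d k ⌊Real.exp (t ^ 2)⌋₊)
        (by positivity) (by
          rw [div_le_one hN0]
          exact_mod_cast hsN) (hT1.trans htT) (by rw [← hm, ← hmt]) hlog (by positivity)
        (fun M hM1 hM2 hM3 => by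
          rw [div_mul_cancel₀ _ hd0.ne']
          exact hbelow t htT M hM1 hM2 hM3)
      refine (h1 s hs (by field_simp)).trans (le_of_eq ?_)
      congr 1
      field_simp
      ring
  · -- (4)
    intro m hCm
    obtain ⟨htT, hmt⟩ := hvar T m (by linarith) (hC3.trans hCm)
    obtain ⟨t, ht⟩ : ∃ t : ℝ, t = √(Real.log m) := ⟨_, rfl⟩
    rw [← ht] at htT hmt ⊢
    have ht1 : 1 ≤ t := hT3.trans htT
    have hst : 1 ≤ √t := by rwa [Real.one_le_sqrt]
    have e1 : m * Real.exp (-(7 * k * t)) = Real.exp (t ^ 2 - 7 * k * t) := by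
      rw [hmt, ← Real.exp_add]; congr 1
    have e2 : m * Real.exp (7 * k * t) = Real.exp (t ^ 2 + 7 * k * t) := by
      rw [hmt, ← Real.exp_add]
    rw [e1, e2, hmt, hρ, hρ, hρ]
    have hfac : 3 * Real.exp (4 * (15 * k * √t)) ≤ Real.exp (C * √t) := by
      calc 3 * Real.exp (4 * (15 * k * √t)) ≤ Real.exp 6 * Real.exp (4 * (15 * k * √t)) := by
            have h6 := exp_six
            gcongr
            linarith
        _ = Real.exp (6 + 4 * (15 * k * √t)) := by rw [Real.exp_add]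
        _ ≤ Real.exp (C * √t) := by
            apply Real.exp_le_exp.2
            nlinarith
    have hd0 := hρp (t ^ 2) (by positivity)
    have hd2 := hρp (t ^ 2 + 7 * k * t) (by positivity)
    have hkt : 0 ≤ (k : ℝ) * t := by positivity
    have hkt2 : 0 ≤ t * (t - 7 * k) := mul_nonneg (by linarith) (by linarith)
    refine ⟨(compare hk ht1 (u := t ^ 2 - 7 * k * t) (v := t ^ 2) (by linarith) (by linarith)
      (by linarith)).trans ?_, (compare hk ht1 (u := t ^ 2) (v := t ^ 2 + 7 * k * t)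
      (by positivity) (by linarith) (by linarith)).trans ?_⟩
    · gcongr
    · gcongr
  · -- (5)
    intro ε hε
    obtain ⟨Λ₁, B₁, E₁, hΛ₁, hE₁, hW₁⟩ := R535.AP.window hk (c := 6 * k + 2) (ε := ε / 2)
      (by positivity) (by positivity)
    obtain ⟨Λ₂, B₂, E₂, hΛ₂, hE₂, hW₂⟩ := H24.RS.window_up hk (c := 5 * k) (ε := ε / 2)
      (by positivity) (by positivity)
    obtain ⟨T', hT'⟩ : ∃ T' : ℝ, T' = max T (max (6 * (k : ℝ) + 2) (96 * Λ₂)) := ⟨_, rfl⟩
    have hT'1 : T ≤ T' := by rw [hT']; exact le_max_left _ _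
    have hT'2 : 6 * (k : ℝ) + 2 ≤ T' := by
      rw [hT']; exact (le_max_left _ _).trans (le_max_right _ _)
    have hT'3 : 96 * Λ₂ ≤ T' := by
      rw [hT']; exact (le_max_right _ _).trans (le_max_right _ _)
    obtain ⟨Λ, hΛ⟩ : ∃ Λ : ℝ, Λ = max (60 * Λ₁) (max (192 * Λ₂) (Real.exp (T' ^ 2))) := ⟨_, rfl⟩
    have hΛa : 60 * Λ₁ ≤ Λ := by rw [hΛ]; exact le_max_left _ _
    have hΛb : 192 * Λ₂ ≤ Λ := by rw [hΛ]; exact (le_max_left _ _).trans (le_max_right _ _)
    have hΛc : Real.exp (T' ^ 2) ≤ Λ := by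
      rw [hΛ]; exact (le_max_right _ _).trans (le_max_right _ _)
    have hΛ0 : 0 < Λ := by linarith
    have hΛ₁0 : 0 < Λ₁ := by linarith
    have hΛ₂0 : 0 < Λ₂ := by linarith
    -- the comparison of scales
    have hdown : ∀ t : ℝ, T' ≤ t → ⌊Real.exp (t ^ 2)⌋₊ ∉ (E₁ ∪ E₂ : Set ℕ) → ∀ M : ℕ, 1 ≤ M →
        Real.exp (t ^ 2 - (6 * k + 1) * t) ≤ M → (M : ℝ) ≤ Real.exp (t ^ 2) →
        H617R3.AP.d k M ≤ Λ₁ * H617R3.AP.d k ⌊Real.exp (t ^ 2)⌋₊ := by
      intro t ht hE M hM1 hM2 hM3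
      have ht1 : 1 ≤ t := by linarith
      obtain ⟨h1, h2⟩ := floor_facts ht1
      have hn0 : (0 : ℝ) < (⌊Real.exp (t ^ 2)⌋₊ : ℝ) := (Real.exp_pos _).trans_le h1
      have hn1 : 1 ≤ ⌊Real.exp (t ^ 2)⌋₊ := by exact_mod_cast hn0
      refine hW₁ _ hn1 (fun h => hE (Or.inl h)) M (le_trans ?_ hM2)
      calc (⌊Real.exp (t ^ 2)⌋₊ : ℝ) *
            Real.exp (-((6 * k + 2) * √(Real.log (⌊Real.exp (t ^ 2)⌋₊ : ℝ))))
          ≤ Real.exp (t ^ 2) * Real.exp (-((6 * k + 2) * (t - 1))) := by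
            have := Nat.floor_le (Real.exp_pos (t ^ 2)).le
            gcongr
        _ = Real.exp (t ^ 2 + -((6 * k + 2) * (t - 1))) := by rw [Real.exp_add]
        _ ≤ Real.exp (t ^ 2 - (6 * k + 1) * t) := by
            apply Real.exp_le_exp.2
            nlinarith
    have hupw : ∀ t : ℝ, T' ≤ t → ⌊Real.exp (t ^ 2)⌋₊ ∉ E₁ ∪ E₂ → ∀ M : ℕ,
        ⌊Real.exp (t ^ 2)⌋₊ ≤ M → (M : ℝ) ≤ Real.exp (t ^ 2 + 5 * (k - 1) * t) →
        H617R3.AP.d k ⌊Real.exp (t ^ 2)⌋₊ ≤ Λ₂ * H617R3.AP.d k M := by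
      intro t ht hE M hM1 hM2
      have ht1 : 1 ≤ t := by linarith
      obtain ⟨h1, h2⟩ := floor_facts ht1
      have hn0 : (0 : ℝ) < (⌊Real.exp (t ^ 2)⌋₊ : ℝ) := (Real.exp_pos _).trans_le h1
      have hn1 : 1 ≤ ⌊Real.exp (t ^ 2)⌋₊ := by exact_mod_cast hn0
      refine hW₂ _ hn1 (fun h => hE (Or.inr h)) M (hn1.trans hM1) (hM2.trans ?_)
      calc Real.exp (t ^ 2 + 5 * (k - 1) * t)
          ≤ Real.exp ((t ^ 2 - 1) + 5 * k * (t - 1)) := by
            apply Real.exp_le_exp.2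
            nlinarith
        _ = Real.exp (t ^ 2 - 1) * Real.exp (5 * k * (t - 1)) := by rw [Real.exp_add]
        _ ≤ (⌊Real.exp (t ^ 2)⌋₊ : ℝ) *
            Real.exp (5 * k * √(Real.log (⌊Real.exp (t ^ 2)⌋₊ : ℝ))) := by gcongr
    obtain ⟨E, hE⟩ : ∃ E : Set ℕ, E = E₁ ∪ E₂ := ⟨_, rfl⟩
    rw [← hE] at hdown hupw
    refine ⟨Λ, B₁ + B₂, E, by linarith, ?_, ?_, ?_⟩
    · intro x hx
      have h1 := H24.RS.sum_union_le' E₁ E₂ x
      have h2 := hE₁ x hx
      have h3 := hE₂ x hx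
      have e : ∑ n ∈ (Icc 1 x).filter (fun n => n ∈ E), (1 : ℝ) / n ≤
          ∑ N ∈ (Icc 1 x).filter (fun N => N ∈ E₁), (1 : ℝ) / N +
            ∑ N ∈ (Icc 1 x).filter (fun N => N ∈ E₂), (1 : ℝ) / N := by
        refine le_trans (le_of_eq ?_) h1
        refine sum_congr ?_ fun _ _ => rfl
        ext n
        simp only [mem_filter, hE]
      refine e.trans ?_
      linarith
    · intro N p m hp0 hp1 hm hΛm hmE hlog
      obtain ⟨htT, hmt⟩ := hvar T' m (by linarith) (hΛc.trans hΛm)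
      obtain ⟨t, ht⟩ : ∃ t : ℝ, t = √(Real.log m) := ⟨_, rfl⟩
      rw [← ht] at htT hmt hlog
      rw [hmt] at hmE
      obtain ⟨h1, -⟩ := hupper N p t Λ₁ hp0 hp1 (by linarith) (by rw [← hm, ← hmt]) hlog
        (by linarith) (hdown t htT hmE)
      have hN0 : (0 : ℝ) ≤ p * N := by positivity
      rw [prob_eq, hmt, hρ]
      refine le_trans (H24.RS.randProb_mono hp0.le hp1 ?_) h1
      rintro S - ⟨A, hA, hA1, hA2⟩
      refine ⟨A, hA, hA1, le_trans ?_ hA2⟩
      have h3 := hρ0 t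
      refine mul_le_mul_of_nonneg_right (mul_le_mul_of_nonneg_right ?_ h3) hN0
      linarith
    · intro N s m hs hsr hm hΛm hmE hlog
      obtain ⟨htT, hmt⟩ := hvar T' m (by linarith) (hΛc.trans hΛm)
      obtain ⟨t, ht⟩ : ∃ t : ℝ, t = √(Real.log m) := ⟨_, rfl⟩
      rw [← ht] at htT hmt hlog
      rw [hmt] at hmE
      have hs0 : (0 : ℝ) < s := by exact_mod_cast hs
      have hsN : s ≤ N := hsr.trans (H617R3.AP.r_le_self k N)
      have hN0 : (0 : ℝ) < N := by exact_mod_cast hs.trans hsN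
      have h3 := hρ0 t
      rw [hcount, hmt, hρ]
      constructor
      · have h1 := hlower N s t Λ₂ hs hsr (by linarith) (by rw [← hm, ← hmt]) hΛ₂ (by
          have := Real.add_one_le_exp t
          linarith) (hupw t htT hmE)
        refine le_trans ?_ h1
        apply pow_le_pow_left₀ (by positivity)
        gcongr
      · obtain ⟨-, h1⟩ := hupper N ((s : ℝ) / N) t Λ₁ (by positivity) (by
          rw [div_le_one hN0]
          exact_mod_cast hsN) (by linarith) (by rw [← hm, ← hmt]) hlog (by linarith)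
          (hdown t htT hmE)
        refine (h1 s hs (by field_simp)).trans ?_
        apply pow_le_pow_left₀ (by positivity)
        gcongr

end Pool.Agent.Results.MP_0f71ae_nt.EverySparseScale
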