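import Mathlib

/-!
# Sets with few progressions: the extremal size is given by `r_k` at a smaller scale
-/

set_option autoImplicit false

namespace Pool.Agent.Results.MP_0f71ae_nt.FewProgressions

open Finset

/-- `A` contains no progression `a, a + d, ..., a + (k - 1) d` with `d ≥ 1`. -/
def APFree (k : ℕ) (A : Finset ℕ) : Prop :=
  ∀ a d : ℕ, 1 ≤ d → ¬ ∀ i < k, a + i * d ∈ A

open Classical in
/-- `r k N` is the largest size of a subset of `{1, ..., N}` without progressions of length `k`;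
so `r 3 N` is the function of the question. -/
noncomputable def r (k N : ℕ) : ℕ := ((Icc 1 N).powerset.filter (fun A => APFree k A)).sup card

open Classical in
/-- the number of `k`-term progressions `a, a + d, ..., a + (k - 1) d`, `d ≥ 1`, in a subset `A` of
`{1, ..., N}` -/
noncomputable def apCount (k N : ℕ) (A : Finset ℕ) : ℕ :=
  ((Icc 1 N ×ˢ Icc 1 N).filter (fun q => ∀ i < k, q.1 + i * q.2 ∈ A)).card

open Classical in
/-- the number of `k`-term progressions `a, a + d, ..., a + (k - 1) d`, `d ≠ 0`, in a subset `B` of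
the integers modulo `p` -/
noncomputable def apCountZ (k p : ℕ) [Fact p.Prime] (B : Finset (ZMod p)) : ℕ :=
  ((univ : Finset (ZMod p × ZMod p)).filter (fun w => w.2 ≠ 0 ∧
      ∀ i < k, w.1 + (i : ZMod p) * w.2 ∈ B)).card

theorem card_le_r {k N : ℕ} {A : Finset ℕ} (hA : A ⊆ Icc 1 N) (h : APFree k A) :
    A.card ≤ r k N := by
  classical
  unfold r
  exact Finset.le_sup (f := card) (by
    rw [mem_filter, mem_powerset]
    exact ⟨hA, h⟩)

theorem exists_opt {k : ℕ} (hk : 1 ≤ k) (N : ℕ) :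
    ∃ A : Finset ℕ, A ⊆ Icc 1 N ∧ APFree k A ∧ A.card = r k N := by
  classical
  have hne : ((Icc 1 N).powerset.filter (fun A => APFree k A)).Nonempty := by
    refine ⟨∅, ?_⟩
    rw [mem_filter]
    refine ⟨empty_mem_powerset _, fun a d _ h => ?_⟩
    have := h 0 (by omega)
    simp at this
  obtain ⟨A, hA, hA2⟩ := Finset.exists_mem_eq_sup _ hne card
  rw [mem_filter, mem_powerset] at hA
  exact ⟨A, hA.1, hA.2, hA2.symm⟩

/-- deletion: remove the first term of every progression -/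
theorem deletion {k m : ℕ} (hk : 2 ≤ k) {S : Finset ℕ} (hS : S ⊆ Icc 1 m) :
    S.card ≤ r k m + apCount k m S := by
  classical
  obtain ⟨Q, hQ⟩ : ∃ Q, Q = (Icc 1 m ×ˢ Icc 1 m).filter (fun q => ∀ i < k, q.1 + i * q.2 ∈ S) :=
    ⟨_, rfl⟩
  have hfree : APFree k (S \ Q.image Prod.fst) := by
    intro a d hd h
    have hmem : ∀ i < k, a + i * d ∈ S := fun i hi => (mem_sdiff.1 (h i hi)).1
    have h0 := hmem 0 (by omega)
    have h1 := hmem 1 (by omega)
    have h0' := mem_Icc.1 (hS h0)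
    have h1' := mem_Icc.1 (hS h1)
    have hin : (a, d) ∈ Q := by
      rw [hQ, mem_filter, mem_product, mem_Icc, mem_Icc]
      refine ⟨⟨⟨by omega, by omega⟩, ⟨hd, by omega⟩⟩, hmem⟩
    have h2 := (mem_sdiff.1 (h 0 (by omega))).2
    apply h2
    rw [mem_image]
    exact ⟨(a, d), hin, by simp⟩
  have h1 := card_le_r (k := k) (N := m) (sdiff_subset.trans hS) hfree
  have h2 : S.card ≤ (S \ Q.image Prod.fst).card + (Q.image Prod.fst).card := by
    have := card_le_card_sdiff_add_card (s := S) (t := Q.image Prod.fst)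
    omega
  have h3 : (Q.image Prod.fst).card ≤ Q.card := card_image_le
  have h4 : apCount k m S = Q.card := by rw [hQ]; rfl
  omega

/-- three terms of a progression modulo `p` -/
theorem lift {N p : ℕ} (hp : 2 * N < p) {x y z : ℕ} (hx : x ∈ Icc 1 N) (hy : y ∈ Icc 1 N)
    (hz : z ∈ Icc 1 N) (h : (x : ZMod p) + z = 2 * y) : x + z = 2 * y := by
  rw [mem_Icc] at hx hy hz
  have h1 : ((x + z : ℕ) : ZMod p) = ((2 * y : ℕ) : ZMod p) := by push_cast; exact h
  rw [ZMod.natCast_eq_natCast_iff] at h1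
  exact Nat.ModEq.eq_of_lt_of_lt h1 (by omega) (by omega)

open Classical in
/-- the progressions modulo `p` in `A` -/
theorem modp {k N p : ℕ} (hk : 3 ≤ k) (hp : 2 * N < p) {A : Finset ℕ} (hA : A ⊆ Icc 1 N)
    [Fact p.Prime] :
    ((univ : Finset (ZMod p × ZMod p)).filter (fun w => w.2 ≠ 0 ∧
      ∀ i < k, w.1 + (i : ZMod p) * w.2 ∈ A.image (fun x : ℕ => (x : ZMod p)))).card ≤
      2 * apCount k N A := by
  classical
  have hinj : ∀ x ∈ A, ∀ y ∈ A, (x : ZMod p) = y → x = y := by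
    intro x hx y hy h
    rw [ZMod.natCast_eq_natCast_iff] at h
    have h1 := mem_Icc.1 (hA hx)
    have h2 := mem_Icc.1 (hA hy)
    exact Nat.ModEq.eq_of_lt_of_lt h (by omega) (by omega)
  -- the terms
  have hterm : ∀ w : ZMod p × ZMod p, (w.2 ≠ 0 ∧
      ∀ i < k, w.1 + (i : ZMod p) * w.2 ∈ A.image (fun x : ℕ => (x : ZMod p))) →
      ∃ z : ℕ → ℤ, (∀ i < k, ∃ x ∈ A, z i = (x : ℤ) ∧ (x : ZMod p) = w.1 + (i : ZMod p) * w.2) ∧
        (∀ i < k, z i = z 0 + i * (z 1 - z 0)) ∧ z 0 ≠ z 1 := by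
    rintro w ⟨hw0, hw⟩
    choose! f hf hf2 using fun (i : ℕ) (hi : i < k) => mem_image.1 (hw i hi)
    refine ⟨fun i => (f i : ℤ), fun i hi => ⟨f i, hf i hi, rfl, hf2 i hi⟩, ?_, ?_⟩
    · have h3 : ∀ i, i + 2 < k → f i + f (i + 2) = 2 * f (i + 1) := by
        intro i hi
        refine lift hp (hA (hf i (by omega))) (hA (hf (i + 1) (by omega)))
          (hA (hf (i + 2) (by omega))) ?_
        rw [hf2 i (by omega), hf2 (i + 1) (by omega), hf2 (i + 2) (by omega)]
        push_cast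
        ring
      have h4 : ∀ i, (i < k → (f i : ℤ) = f 0 + i * ((f 1 : ℤ) - f 0)) ∧
          (i + 1 < k → (f (i + 1) : ℤ) = f 0 + (i + 1 : ℕ) * ((f 1 : ℤ) - f 0)) := by
        intro i
        induction i with
        | zero => refine ⟨fun _ => by simp, fun _ => by simp⟩
        | succ n ih =>
          refine ⟨ih.2, fun hi => ?_⟩
          have e1 := ih.1 (by omega)
          have e2 := ih.2 (by omega)
          have e3 : ((f n : ℕ) : ℤ) + f (n + 2) = 2 * f (n + 1) := by exact_mod_cast h3 n (by omega)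
          have e4 : (f (n + 1 + 1) : ℤ) = 2 * f (n + 1) - f n := by
            have : n + 1 + 1 = n + 2 := rfl
            rw [this]
            linarith
          rw [e4, e1, e2]
          push_cast
          ring
      intro i hi
      exact (h4 i).1 hi
    · intro h
      have h'' : ((f 0 : ℕ) : ℤ) = f 1 := h
      have h' : f 0 = f 1 := by exact_mod_cast h''
      have e0 := hf2 0 (by omega)
      have e1 := hf2 1 (by omega)
      rw [h', e1] at e0
      apply hw0
      have : w.1 + ((1 : ℕ) : ZMod p) * w.2 = w.1 + ((0 : ℕ) : ZMod p) * w.2 := e0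
      simpa using this
  choose! z hz1 hz2 hz3 using hterm
  obtain ⟨W, hW⟩ : ∃ W, W = (univ : Finset (ZMod p × ZMod p)).filter (fun w => w.2 ≠ 0 ∧
      ∀ i < k, w.1 + (i : ZMod p) * w.2 ∈ A.image (fun x : ℕ => (x : ZMod p))) := ⟨_, rfl⟩
  rw [← hW]
  have hmemW : ∀ w ∈ W, w.2 ≠ 0 ∧
      ∀ i < k, w.1 + (i : ZMod p) * w.2 ∈ A.image (fun x : ℕ => (x : ZMod p)) := by
    intro w hw
    rw [hW, mem_filter] at hw
    exact hw.2
  obtain ⟨Q, hQ⟩ : ∃ Q, Q = (Icc 1 N ×ˢ Icc 1 N).filter (fun q => ∀ i < k, q.1 + i * q.2 ∈ A) :=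
    ⟨_, rfl⟩
  have hcount : apCount k N A = Q.card := by rw [hQ]; rfl
  -- (z 0, z 1) determines w
  have hdet : ∀ w ∈ W, ∀ w' ∈ W, z w 0 = z w' 0 → z w 1 = z w' 1 → w = w' := by
    intro w hw w' hw' h0 h1
    obtain ⟨x0, -, e0, e0'⟩ := hz1 w (hmemW w hw) 0 (by omega)
    obtain ⟨y0, -, g0, g0'⟩ := hz1 w' (hmemW w' hw') 0 (by omega)
    obtain ⟨x1, -, e1, e1'⟩ := hz1 w (hmemW w hw) 1 (by omega)
    obtain ⟨y1, -, g1, g1'⟩ := hz1 w' (hmemW w' hw') 1 (by omega)
    have hx0 : x0 = y0 := by rw [e0, g0] at h0; exact_mod_cast h0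
    have hx1 : x1 = y1 := by rw [e1, g1] at h1; exact_mod_cast h1
    rw [hx0, g0'] at e0'
    rw [hx1, g1'] at e1'
    simp only [Nat.cast_zero, zero_mul, add_zero, Nat.cast_one, one_mul] at e0' e1'
    have h2 : w.1 = w'.1 := e0'.symm
    have h3 : w.2 = w'.2 := by
      rw [h2] at e1'
      exact (add_left_cancel e1').symm
    exact Prod.ext h2 h3
  have hsplit : W.card = (W.filter (fun w => z w 0 < z w 1)).card +
      (W.filter (fun w => ¬ z w 0 < z w 1)).card :=
    (card_filter_add_card_filter_not _).symm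
  have hpos : ∀ w ∈ W, ∀ i < k, 1 ≤ z w i ∧ z w i ≤ N := by
    intro w hw i hi
    obtain ⟨x, hx, e, -⟩ := hz1 w (hmemW w hw) i hi
    have := mem_Icc.1 (hA hx)
    rw [e]
    constructor <;> exact_mod_cast (by omega)
  have hinA : ∀ w ∈ W, ∀ i < k, ∀ y : ℕ, (y : ℤ) = z w i → y ∈ A := by
    intro w hw i hi y hy
    obtain ⟨x, hx, e, -⟩ := hz1 w (hmemW w hw) i hi
    rw [e] at hy
    have : y = x := by exact_mod_cast hy
    rw [this]; exact hx
  have h1 : (W.filter (fun w => z w 0 < z w 1)).card ≤ Q.card := by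
    refine card_le_card_of_injOn (fun w => ((z w 0).toNat, (z w 1 - z w 0).toNat)) ?_ ?_
    · intro w hw
      rw [mem_coe, mem_filter] at hw
      obtain ⟨hw, hlt⟩ := hw
      have p0 := hpos w hw 0 (by omega)
      have p1 := hpos w hw 1 (by omega)
      rw [mem_coe, hQ, mem_filter, mem_product, mem_Icc, mem_Icc]
      refine ⟨⟨⟨by show 1 ≤ (z w 0).toNat; omega, by show (z w 0).toNat ≤ N; omega⟩,
        ⟨by show 1 ≤ (z w 1 - z w 0).toNat; omega,
          by show (z w 1 - z w 0).toNat ≤ N; omega⟩⟩, ?_⟩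
      intro i hi
      refine hinA w hw i hi _ ?_
      rw [hz2 w (hmemW w hw) i hi]
      show (((z w 0).toNat + i * (z w 1 - z w 0).toNat : ℕ) : ℤ) = _
      rw [Nat.cast_add, Nat.cast_mul, Int.toNat_of_nonneg (by omega),
        Int.toNat_of_nonneg (by omega)]
    · intro w hw w' hw' h
      rw [mem_coe, mem_filter] at hw hw'
      simp only [Prod.mk.injEq] at h
      have p0 := hpos w hw.1 0 (by omega)
      have q0 := hpos w' hw'.1 0 (by omega)
      have h1 := h.1
      have h2 := h.2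
      have l1 := hw.2
      have l2 := hw'.2
      apply hdet w hw.1 w' hw'.1 <;> omega
  have h2 : (W.filter (fun w => ¬ z w 0 < z w 1)).card ≤ Q.card := by
    refine card_le_card_of_injOn (fun w => ((z w (k - 1)).toNat, (z w 0 - z w 1).toNat)) ?_ ?_
    · intro w hw
      rw [mem_coe, mem_filter] at hw
      obtain ⟨hw, hlt⟩ := hw
      have hne := hz3 w (hmemW w hw)
      have p0 := hpos w hw 0 (by omega)
      have p1 := hpos w hw 1 (by omega)
      have pk := hpos w hw (k - 1) (by omega)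
      rw [mem_coe, hQ, mem_filter, mem_product, mem_Icc, mem_Icc]
      refine ⟨⟨⟨by show 1 ≤ (z w (k - 1)).toNat; omega, by show (z w (k - 1)).toNat ≤ N; omega⟩,
        ⟨by show 1 ≤ (z w 0 - z w 1).toNat; omega,
          by show (z w 0 - z w 1).toNat ≤ N; omega⟩⟩, ?_⟩
      intro i hi
      refine hinA w hw (k - 1 - i) (by omega) _ ?_
      rw [hz2 w (hmemW w hw) (k - 1 - i) (by omega)]
      have e := hz2 w (hmemW w hw) (k - 1) (by omega)
      show (((z w (k - 1)).toNat + i * (z w 0 - z w 1).toNat : ℕ) : ℤ) = _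
      rw [Nat.cast_add, Nat.cast_mul, Int.toNat_of_nonneg (by omega),
        Int.toNat_of_nonneg (by omega), e]
      have e2 : ((k - 1 - i : ℕ) : ℤ) = ((k - 1 : ℕ) : ℤ) - i := by
        rw [Nat.cast_sub (by omega)]
      rw [e2]
      ring
    · intro w hw w' hw' h
      rw [mem_coe, mem_filter] at hw hw'
      simp only [Prod.mk.injEq] at h
      have hne := hz3 w (hmemW w hw.1)
      have hne' := hz3 w' (hmemW w' hw'.1)
      have pk := hpos w hw.1 (k - 1) (by omega)
      have qk := hpos w' hw'.1 (k - 1) (by omega)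
      have l1 := hw.2
      have l2 := hw'.2
      have h1 : z w (k - 1) = z w' (k - 1) := by have := h.1; omega
      have h2 : z w 0 - z w 1 = z w' 0 - z w' 1 := by have := h.2; omega
      have e := hz2 w (hmemW w hw.1) (k - 1) (by omega)
      have e' := hz2 w' (hmemW w' hw'.1) (k - 1) (by omega)
      have h3 : z w 1 - z w 0 = z w' 1 - z w' 0 := by omega
      rw [h3] at e
      have h4 : z w 0 = z w' 0 := by
        have : z w 0 + ((k - 1 : ℕ) : ℤ) * (z w' 1 - z w' 0) =
            z w' 0 + ((k - 1 : ℕ) : ℤ) * (z w' 1 - z w' 0) := by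
          rw [← e, ← e', h1]
        exact add_right_cancel this
      exact hdet w hw.1 w' hw'.1 h4 (by omega)
  rw [hcount]
  omega

open Classical in
/-- the sum over all progressions of length `m` modulo `p` -/
theorem lowerZ {k m p : ℕ} (hk : 3 ≤ k) (hmp : m < p) [Fact p.Prime]
    (B : Finset (ZMod p)) :
    m * (B.card * (p - 1)) ≤ p * (p - 1) * r k m + m * m * apCountZ k p B := by
  obtain ⟨W, hW⟩ : ∃ W, W = (univ : Finset (ZMod p × ZMod p)).filter (fun w => w.2 ≠ 0 ∧
      ∀ i < k, w.1 + (i : ZMod p) * w.2 ∈ B) := ⟨_, rfl⟩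
  have hWc : apCountZ k p B = W.card := by rw [hW]; rfl
  obtain ⟨U, hU⟩ : ∃ U, U = (univ : Finset (ZMod p × ZMod p)).filter (fun u => u.2 ≠ 0) := ⟨_, rfl⟩
  have hUc : U.card = p * (p - 1) := by
    have : U = (univ : Finset (ZMod p)) ×ˢ ((univ : Finset (ZMod p)).erase 0) := by
      ext u
      rw [hU, mem_filter, mem_product, mem_erase]
      simp
    rw [this, card_product, card_erase_of_mem (mem_univ _), card_univ, ZMod.card]
  obtain ⟨S, hS⟩ : ∃ S : ZMod p × ZMod p → Finset ℕ,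
      S = fun u => (Icc 1 m).filter (fun j : ℕ => u.1 + (j : ZMod p) * u.2 ∈ B) := ⟨_, rfl⟩
  -- the sum of the sizes
  have h1 : m * (B.card * (p - 1)) ≤ ∑ u ∈ U, (S u).card := by
    have e1 : ∑ u ∈ U, (S u).card =
        ∑ j ∈ Icc 1 m, (U.filter (fun u => u.1 + (j : ZMod p) * u.2 ∈ B)).card := by
      rw [hS]
      simp only [card_filter]
      exact sum_comm
    rw [e1]
    have e2 : m * (B.card * (p - 1)) = ∑ _j ∈ Icc 1 m, B.card * (p - 1) := by
      rw [sum_const, Nat.card_Icc, smul_eq_mul]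
      congr 1
    rw [e2]
    refine sum_le_sum fun j _ => ?_
    have e3 : B.card * (p - 1) = (B ×ˢ ((univ : Finset (ZMod p)).erase 0)).card := by
      rw [card_product, card_erase_of_mem (mem_univ _), card_univ, ZMod.card]
    rw [e3]
    refine card_le_card_of_injOn (fun w => (w.1 - (j : ZMod p) * w.2, w.2)) ?_ ?_
    · intro w hw
      rw [mem_coe, mem_product, mem_erase] at hw
      rw [mem_coe, mem_filter, hU, mem_filter]
      refine ⟨⟨mem_univ _, hw.2.1⟩, ?_⟩
      show w.1 - (j : ZMod p) * w.2 + (j : ZMod p) * w.2 ∈ B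
      rw [sub_add_cancel]
      exact hw.1
    · intro w _ w' _ h
      simp only [Prod.mk.injEq] at h
      obtain ⟨ha, hb⟩ := h
      rw [hb] at ha
      exact Prod.ext (sub_left_injective ha) hb
  -- the sum of the numbers of progressions
  have h2 : ∑ u ∈ U, apCount k m (S u) ≤ m * m * W.card := by
    have e1 : ∑ u ∈ U, apCount k m (S u) = ∑ q ∈ Icc 1 m ×ˢ Icc 1 m,
        (U.filter (fun u => ∀ i < k, q.1 + i * q.2 ∈ S u)).card := by
      unfold apCount
      simp only [card_filter]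
      exact sum_comm
    rw [e1]
    have e2 : m * m * W.card = ∑ _q ∈ Icc 1 m ×ˢ Icc 1 m, W.card := by
      rw [sum_const, card_product, Nat.card_Icc, smul_eq_mul]
      simp
    rw [e2]
    refine sum_le_sum fun q hq => ?_
    rw [mem_product, mem_Icc, mem_Icc] at hq
    have hd : ((q.2 : ℕ) : ZMod p) ≠ 0 := by
      rw [Ne, ZMod.natCast_eq_zero_iff]
      intro h
      have := Nat.le_of_dvd (by omega) h
      omega
    refine card_le_card_of_injOn (fun u => (u.1 + (q.1 : ZMod p) * u.2, (q.2 : ZMod p) * u.2)) ?_ ?_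
    · intro u hu
      rw [mem_coe, mem_filter, hU, mem_filter] at hu
      obtain ⟨⟨-, hu0⟩, hu1⟩ := hu
      rw [mem_coe, hW, mem_filter]
      refine ⟨mem_univ _, mul_ne_zero hd hu0, fun i hi => ?_⟩
      have := hu1 i hi
      rw [hS] at this
      have h3 := (mem_filter.1 this).2
      show u.1 + (q.1 : ZMod p) * u.2 + (i : ZMod p) * ((q.2 : ZMod p) * u.2) ∈ B
      have e : u.1 + (q.1 : ZMod p) * u.2 + (i : ZMod p) * ((q.2 : ZMod p) * u.2) =
          u.1 + ((q.1 + i * q.2 : ℕ) : ZMod p) * u.2 := by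
        push_cast
        ring
      rw [e]
      exact h3
    · intro u _ u' _ h
      simp only [Prod.mk.injEq] at h
      obtain ⟨ha, hb⟩ := h
      have hb' : u.2 = u'.2 := mul_left_cancel₀ hd hb
      rw [hb'] at ha
      exact Prod.ext (add_right_cancel ha) hb'
  -- deletion
  have h3 : ∑ u ∈ U, (S u).card ≤ p * (p - 1) * r k m + ∑ u ∈ U, apCount k m (S u) := by
    calc ∑ u ∈ U, (S u).card ≤ ∑ u ∈ U, (r k m + apCount k m (S u)) := by
          refine sum_le_sum fun u _ => deletion (by omega) ?_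
          rw [hS]
          exact filter_subset _ _
      _ = _ := by rw [sum_add_distrib, sum_const, smul_eq_mul, hUc]
  rw [hWc]
  exact h1.trans (h3.trans (Nat.add_le_add_left h2 _))

open Classical in
theorem lower {k m N : ℕ} (hk : 3 ≤ k) (hm : 1 ≤ m) (hmN : m ≤ N) {A : Finset ℕ}
    (hA : A ⊆ Icc 1 N) (hbig : 8 * r k m * N < m * A.card) :
    N * A.card < 2 * m * apCount k N A := by
  obtain ⟨p, hp, hp1, hp2⟩ := Nat.exists_prime_lt_and_le_two_mul (2 * N) (by omega)
  have : Fact p.Prime := ⟨hp⟩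
  obtain ⟨B, hB⟩ : ∃ B, B = A.image (fun x : ℕ => (x : ZMod p)) := ⟨_, rfl⟩
  have hBcard : B.card = A.card := by
    rw [hB]
    apply card_image_of_injOn
    intro x hx y hy h
    have h' : (x : ZMod p) = y := h
    rw [ZMod.natCast_eq_natCast_iff] at h'
    have h1 := mem_Icc.1 (hA hx)
    have h2 := mem_Icc.1 (hA hy)
    exact Nat.ModEq.eq_of_lt_of_lt h' (by omega) (by omega)
  have hWc : apCountZ k p B ≤ 2 * apCount k N A := by
    rw [hB]
    exact modp hk hp1 hA
  have hZ := lowerZ (k := k) (m := m) hk (by omega) B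
  rw [hBcard] at hZ
  obtain ⟨P, hP⟩ : ∃ P, P = p - 1 := ⟨_, rfl⟩
  obtain ⟨a, ha⟩ : ∃ a, a = apCount k N A := ⟨_, rfl⟩
  obtain ⟨n, hn⟩ : ∃ n, n = A.card := ⟨_, rfl⟩
  obtain ⟨ρ, hρ⟩ : ∃ ρ, ρ = r k m := ⟨_, rfl⟩
  rw [← hP, ← hn, ← hρ] at hZ
  rw [← ha] at hWc
  rw [← hρ, ← hn] at hbig
  rw [← ha, ← hn]
  have hP1 : 2 * N ≤ P := by omega
  have hP0 : 0 < P := by omega
  have h4 : m * (n * P) ≤ p * P * ρ + m * m * (2 * a) := by
    calc m * (n * P) ≤ p * P * ρ + m * m * apCountZ k p B := hZ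
      _ ≤ _ := by gcongr
  have h5 : 2 * (p * ρ) < m * n := by
    calc 2 * (p * ρ) ≤ 2 * (2 * (2 * N) * ρ) := by gcongr
      _ = 8 * ρ * N := by ring
      _ < m * n := hbig
  have h6 : 2 * (p * P * ρ) < m * n * P := by
    calc 2 * (p * P * ρ) = 2 * (p * ρ) * P := by ring
      _ < m * n * P := Nat.mul_lt_mul_of_pos_right h5 hP0
  have h7 : m * n * P < m * (4 * m * a) := by
    have e1 : m * (n * P) = m * n * P := by ring
    have e2 : m * (4 * m * a) = 2 * (m * m * (2 * a)) := by ring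
    rw [e1] at h4
    rw [e2]
    omega
  have h8 : n * P < 4 * m * a := by
    rw [mul_assoc] at h7
    exact Nat.lt_of_mul_lt_mul_left h7
  have h9 : 2 * (N * n) < 2 * (2 * m * a) := by
    calc 2 * (N * n) = n * (2 * N) := by ring
      _ ≤ n * P := by gcongr
      _ < 4 * m * a := h8
      _ = 2 * (2 * m * a) := by ring
  omega

/-- arithmetic of blocks -/
theorem block {L H : ℤ} (hH : 2 * H ≤ L + 1) {s s' s'' h h' h'' : ℤ} (h1 : 1 ≤ h ∧ h ≤ H)
    (h2 : 1 ≤ h' ∧ h' ≤ H) (h3 : 1 ≤ h'' ∧ h'' ≤ H)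
    (he : (s * L + h) + (s'' * L + h'') = 2 * (s' * L + h')) : s + s'' = 2 * s' := by
  have hL : 0 < L := by omega
  have e : (s + s'' - 2 * s') * L = 2 * h' - h - h'' := by linarith
  have b1 : (s + s'' - 2 * s') * L < 1 * L := by rw [e]; omega
  have b2 : (-1) * L < (s + s'' - 2 * s') * L := by rw [e]; omega
  have c1 := lt_of_mul_lt_mul_right b1 hL.le
  have c2 := lt_of_mul_lt_mul_right b2 hL.le
  omega

theorem upper {k m N : ℕ} (hk : 3 ≤ k) (hm : 1 ≤ m) (hmN : m ≤ N) :
    ∃ A : Finset ℕ, A ⊆ Icc 1 N ∧ r k m * N ≤ 4 * m * A.card ∧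
      ∀ a d : ℕ, 1 ≤ d → (∀ i < k, a + i * d ∈ A) → 2 * m * d ≤ N := by
  obtain ⟨S, hS, hS2, hS3⟩ := exists_opt (k := k) (by omega) m
  obtain ⟨L, hL⟩ : ∃ L, L = N / m := ⟨_, rfl⟩
  have hL1 : 1 ≤ L := by rw [hL]; exact (Nat.one_le_div_iff (by omega)).2 hmN
  have hLN : m * L ≤ N := by rw [hL]; exact Nat.mul_div_le N m
  have hNL : N < m * (L + 1) := by
    rw [hL]
    have := Nat.lt_mul_div_succ N (show 0 < m by omega)
    simpa using this
  obtain ⟨H, hH⟩ : ∃ H, H = (L + 1) / 2 := ⟨_, rfl⟩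
  have hH1 : 1 ≤ H := by omega
  have hH2 : 2 * H ≤ L + 1 := by omega
  have hH3 : L ≤ 2 * H := by omega
  obtain ⟨A, hA⟩ : ∃ A, A = (S ×ˢ Icc 1 H).image (fun q => (q.1 - 1) * L + q.2) := ⟨_, rfl⟩
  have hmemA : ∀ x ∈ A, ∃ s h : ℕ, s ∈ S ∧ 1 ≤ s ∧ s ≤ m ∧ 1 ≤ h ∧ h ≤ H ∧ x = (s - 1) * L + h := by
    intro x hx
    rw [hA, mem_image] at hx
    obtain ⟨q, hq, rfl⟩ := hx
    rw [mem_product, mem_Icc] at hq
    have := mem_Icc.1 (hS hq.1)
    exact ⟨q.1, q.2, hq.1, this.1, this.2, hq.2.1, hq.2.2, rfl⟩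
  have hAN : A ⊆ Icc 1 N := by
    intro x hx
    obtain ⟨s, h, -, hs1, hs2, hh1, hh2, rfl⟩ := hmemA x hx
    rw [mem_Icc]
    refine ⟨by omega, ?_⟩
    calc (s - 1) * L + h ≤ (m - 1) * L + L := by
          have : h ≤ L := by omega
          gcongr
      _ = m * L := by
          obtain ⟨m', rfl⟩ : ∃ m', m = m' + 1 := ⟨m - 1, by omega⟩
          simp only [Nat.add_sub_cancel]
          ring
      _ ≤ N := hLN
  have hAc : A.card = S.card * H := by
    rw [hA, card_image_of_injOn, card_product, Nat.card_Icc]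
    · simp
    · rintro ⟨s, h⟩ hq ⟨s', h'⟩ hq' he
      rw [mem_coe, mem_product, mem_Icc] at hq hq'
      have t1 := mem_Icc.1 (hS hq.1)
      have t2 := mem_Icc.1 (hS hq'.1)
      obtain ⟨-, q1, q2⟩ := hq
      obtain ⟨-, q3, q4⟩ := hq'
      simp only at he t1 t2 q1 q2 q3 q4
      have hdiv : ∀ a b : ℕ, 1 ≤ b → b ≤ H → (a * L + b - 1) / L = a := by
        intro a b hb1 hb2
        have : a * L + b - 1 = (b - 1) + L * a := by
          have : a * L = L * a := mul_comm _ _
          omega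
        rw [this, Nat.add_mul_div_left _ _ (by omega), Nat.div_eq_of_lt (by omega), zero_add]
      have e1 := hdiv (s - 1) h q1 q2
      have e2 := hdiv (s' - 1) h' q3 q4
      rw [he, e2] at e1
      have e3 : s = s' := by omega
      subst e3
      have e4 : h = h' := by omega
      rw [e4]
  refine ⟨A, hAN, ?_, ?_⟩
  · rw [hAc, hS3]
    calc r k m * N ≤ r k m * (m * (L + 1)) := by gcongr
      _ ≤ r k m * (m * (2 * L)) := by gcongr; omega
      _ ≤ r k m * (m * (2 * (2 * H))) := by gcongr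
      _ = 4 * m * (r k m * H) := by ring
  · intro a₀ d₀ hd1 hq
    have hap : d₀ ≤ H - 1 := by
      obtain ⟨q, hq1, hq2⟩ : ∃ q : ℕ × ℕ, q.1 = a₀ ∧ q.2 = d₀ := ⟨(a₀, d₀), rfl, rfl⟩
      rw [← hq2]
      rw [← hq1, ← hq2] at hq
      rw [← hq2] at hd1
      choose! s h g1 g2 g3 g4 g5 g6 using fun (i : ℕ) (hi : i < k) => hmemA _ (hq i hi)
      -- the blocks
      have key : ∀ i < k, ((q.1 + i * q.2 : ℕ) : ℤ) = ((s i : ℤ) - 1) * L + h i := by
        intro i hi
        rw [g6 i hi]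
        have := g2 i hi
        push_cast [Nat.cast_sub this]
        ring
      have h3 : ∀ i, i + 2 < k → ((s i : ℤ) - 1) + ((s (i + 2) : ℤ) - 1) =
          2 * ((s (i + 1) : ℤ) - 1) := by
        intro i hi
        refine block (L := L) (H := H) (by exact_mod_cast hH2) (h := h i) (h' := h (i + 1))
          (h'' := h (i + 2)) ?_ ?_ ?_ ?_
        · exact ⟨by exact_mod_cast g4 i (by omega), by exact_mod_cast g5 i (by omega)⟩
        · exact ⟨by exact_mod_cast g4 (i + 1) (by omega), by exact_mod_cast g5 (i + 1) (by omega)⟩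
        · exact ⟨by exact_mod_cast g4 (i + 2) (by omega), by exact_mod_cast g5 (i + 2) (by omega)⟩
        · rw [← key i (by omega), ← key (i + 1) (by omega), ← key (i + 2) (by omega)]
          push_cast
          ring
      have h4 : ∀ i, (i < k → (s i : ℤ) = s 0 + i * ((s 1 : ℤ) - s 0)) ∧
          (i + 1 < k → (s (i + 1) : ℤ) = s 0 + (i + 1 : ℕ) * ((s 1 : ℤ) - s 0)) := by
        intro i
        induction i with
        | zero => refine ⟨fun _ => by simp, fun _ => by simp⟩
        | succ n ih =>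
          refine ⟨ih.2, fun hi => ?_⟩
          have e1 := ih.1 (by omega)
          have e2 := ih.2 (by omega)
          have e3 := h3 n (by omega)
          have e4 : (s (n + 1 + 1) : ℤ) = 2 * s (n + 1) - s n := by
            have : n + 1 + 1 = n + 2 := rfl
            rw [this]
            linarith
          rw [e4, e1, e2]
          push_cast
          ring
      have k0 := key 0 (by omega)
      have k1 := key 1 (by omega)
      have b0 := g4 0 (by omega)
      have b0' := g5 0 (by omega)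
      have b1 := g4 1 (by omega)
      have b1' := g5 1 (by omega)
      have hkd : (q.2 : ℤ) = ((s 1 : ℤ) - s 0) * L + (h 1 - h 0) := by
        push_cast at k0 k1
        linarith
      have hs01 : s 0 ≤ s 1 := by
        by_contra hcon
        rw [not_le] at hcon
        have c1 : (s 1 : ℤ) - s 0 ≤ -1 := by omega
        have c2 : ((s 1 : ℤ) - s 0) * L ≤ (-1) * L :=
          mul_le_mul_of_nonneg_right c1 (by positivity)
        omega
      have hs10 : ¬ s 0 < s 1 := by
        intro hlt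
        refine hS2 (s 0) (s 1 - s 0) (by omega) fun i hi => ?_
        have e1 := (h4 i).1 hi
        have e2 : s i = s 0 + i * (s 1 - s 0) := by
          zify [hs01]
          exact e1
        rw [← e2]
        exact g1 i hi
      have hseq : s 1 = s 0 := by omega
      rw [hseq, sub_self, zero_mul, zero_add] at hkd
      omega
    calc 2 * m * d₀ ≤ 2 * m * (H - 1) := by gcongr
      _ = m * (2 * (H - 1)) := by ring
      _ ≤ m * L := by
          have : 2 * (H - 1) ≤ L := by omega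
          gcongr
      _ ≤ N := hLN

open Classical in
/-- the common differences `d ≥ 1` of the `k`-term progressions in a subset `A` of `{1, ..., N}` -/
noncomputable def diffs (k N : ℕ) (A : Finset ℕ) : Finset ℕ :=
  (Icc 1 N).filter (fun d => ∃ a, ∀ i < k, a + i * d ∈ A)

theorem apCount_le {k N : ℕ} (hk : 3 ≤ k) {A : Finset ℕ} :
    apCount k N A ≤ A.card * (diffs k N A).card := by
  classical
  rw [← card_product]
  apply card_le_card
  intro q hq
  rw [mem_filter, mem_product] at hq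
  rw [mem_product]
  refine ⟨by simpa using hq.2 0 (by omega), ?_⟩
  unfold diffs
  rw [mem_filter]
  exact ⟨hq.1.2, q.1, hq.2⟩

theorem diffs_card_le {k N : ℕ} {A : Finset ℕ} {x : ℝ} (hx : 0 ≤ x)
    (h : ∀ d ∈ diffs k N A, (d : ℝ) ≤ x) : ((diffs k N A).card : ℝ) ≤ x := by
  classical
  have h1 : diffs k N A ⊆ Icc 1 ⌊x⌋₊ := by
    intro d hd
    rw [mem_Icc]
    refine ⟨?_, Nat.le_floor (h d hd)⟩
    unfold diffs at hd
    exact (mem_Icc.1 (mem_filter.1 hd).1).1
  have h2 := card_le_card h1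
  rw [Nat.card_Icc, Nat.add_sub_cancel] at h2
  calc ((diffs k N A).card : ℝ) ≤ (⌊x⌋₊ : ℝ) := by exact_mod_cast h2
    _ ≤ x := Nat.floor_le hx

theorem part1 {k m N : ℕ} (hk : 3 ≤ k) (hm : 1 ≤ m) (hmN : m ≤ N) {A : Finset ℕ}
    (hA : A ⊆ Icc 1 N) (hbig : 8 * ((r k m : ℝ) / m) * N < A.card) :
    (N : ℝ) / (2 * m) * A.card < apCount k N A ∧ (N : ℝ) / (2 * m) < (diffs k N A).card ∧
      ∃ d ∈ diffs k N A, (N : ℝ) / (2 * m) < d := by
  have hm0 : (0 : ℝ) < m := by exact_mod_cast hm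
  have h0 : 8 * r k m * N < m * A.card := by
    have h1 : 8 * (r k m : ℝ) * N < m * A.card := by
      have e : 8 * (r k m : ℝ) * N = m * (8 * ((r k m : ℝ) / m) * N) := by field_simp
      rw [e]
      exact mul_lt_mul_of_pos_left hbig hm0
    exact_mod_cast h1
  have h1 := lower hk hm hmN hA h0
  have h1' : (N : ℝ) * A.card < 2 * m * apCount k N A := by exact_mod_cast h1
  have ha : (N : ℝ) / (2 * m) * A.card < apCount k N A := by
    rw [div_mul_eq_mul_div, div_lt_iff₀ (by positivity)]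
    linarith
  have hc : (apCount k N A : ℝ) ≤ A.card * (diffs k N A).card := by exact_mod_cast apCount_le hk
  have hAc : (0 : ℝ) < A.card := by
    refine lt_of_le_of_lt ?_ hbig
    positivity
  have hb : (N : ℝ) / (2 * m) < (diffs k N A).card := by
    have h2 : A.card * ((N : ℝ) / (2 * m)) < A.card * ((diffs k N A).card : ℝ) := by linarith
    exact lt_of_mul_lt_mul_left h2 hAc.le
  refine ⟨ha, hb, ?_⟩
  by_contra hcon
  push Not at hcon
  have := diffs_card_le (k := k) (N := N) (A := A) (by positivity) hcon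
  linarith

theorem part2 {k m N : ℕ} (hk : 3 ≤ k) (hm : 1 ≤ m) (hmN : m ≤ N) : ∃ A : Finset ℕ, A ⊆ Icc 1 N ∧
    ((r k m : ℝ) / m) * N / 4 ≤ A.card ∧ (∀ d ∈ diffs k N A, (d : ℝ) ≤ (N : ℝ) / (2 * m)) ∧
      ((diffs k N A).card : ℝ) ≤ (N : ℝ) / (2 * m) ∧
      (apCount k N A : ℝ) ≤ (N : ℝ) / (2 * m) * A.card := by
  classical
  have hm0 : (0 : ℝ) < m := by exact_mod_cast hm
  obtain ⟨A, hA, h1, h2⟩ := upper (k := k) hk hm hmN
  have h1' : (r k m : ℝ) * N ≤ 4 * m * A.card := by exact_mod_cast h1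
  have h3 : ∀ d ∈ diffs k N A, (d : ℝ) ≤ (N : ℝ) / (2 * m) := by
    intro d hd
    unfold diffs at hd
    rw [mem_filter, mem_Icc] at hd
    obtain ⟨⟨hd1, -⟩, a, ha⟩ := hd
    have h4 := h2 a d hd1 ha
    have h4' : 2 * (m : ℝ) * d ≤ N := by exact_mod_cast h4
    rw [le_div_iff₀ (by positivity)]
    linarith
  have h5 := diffs_card_le (k := k) (N := N) (A := A) (by positivity) h3
  refine ⟨A, hA, ?_, h3, h5, ?_⟩
  · rw [div_mul_eq_mul_div, div_div, div_le_iff₀ (by positivity)]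
    linarith
  · have hc : (apCount k N A : ℝ) ≤ A.card * (diffs k N A).card := by exact_mod_cast apCount_le hk
    calc (apCount k N A : ℝ) ≤ A.card * (diffs k N A).card := hc
      _ ≤ A.card * ((N : ℝ) / (2 * m)) := by gcongr
      _ = _ := by ring

theorem sum_weights {α : Type*} [Fintype α] [DecidableEq α] (f : α → ℝ) (P : Finset α) :
    ∑ B ∈ (univ : Finset α).powerset,
      (if P ⊆ B then (∏ x ∈ B, f x) * ∏ x ∈ univ \ B, (1 - f x) else 0) = ∏ x ∈ P, f x := by
  have h := Finset.prod_add f (fun x => if x ∈ P then 0 else 1 - f x) univ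
  have h1 : ∏ x : α, (f x + (if x ∈ P then 0 else 1 - f x)) = ∏ x ∈ P, f x := by
    have : ∀ x : α, f x + (if x ∈ P then 0 else 1 - f x) = if x ∈ P then f x else 1 := by
      intro x
      split_ifs <;> ring
    rw [prod_congr rfl fun x _ => this x, prod_ite_mem, univ_inter]
  rw [h1] at h
  rw [h]
  refine sum_congr rfl fun B _ => ?_
  split_ifs with hPB
  · congr 1
    refine prod_congr rfl fun x hx => ?_
    rw [if_neg]
    intro hxP
    exact (mem_sdiff.1 hx).2 (hPB hxP)
  · rw [Finset.not_subset] at hPB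
    obtain ⟨x, hxP, hxB⟩ := hPB
    symm
    apply mul_eq_zero_of_right
    apply prod_eq_zero (i := x)
    · exact mem_sdiff.2 ⟨mem_univ _, hxB⟩
    · rw [if_pos hxP]

/-- the lower bound for sets modulo `p` -/
theorem setZ {k m p : ℕ} (hk : 3 ≤ k) (hm : 1 ≤ m) (hmp : m < p) [hp : Fact p.Prime]
    (B : Finset (ZMod p)) :
    ((p : ℝ) - 1) / m * (B.card - (r k m : ℝ) / m * p) ≤ apCountZ k p B := by
  have hm0 : (0 : ℝ) < m := by exact_mod_cast hm
  have hp2 := hp.out.two_le
  have h1 := lowerZ (k := k) (m := m) hk hmp B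
  have h2 : (m : ℝ) * (B.card * ((p : ℝ) - 1)) ≤ p * ((p : ℝ) - 1) * r k m +
      m * m * apCountZ k p B := by
    have e : ((p - 1 : ℕ) : ℝ) = (p : ℝ) - 1 := by
      rw [Nat.cast_sub (by omega)]; simp
    rw [← e]
    exact_mod_cast h1
  have e : ((p : ℝ) - 1) / m * (B.card - (r k m : ℝ) / m * p) =
      (m * (B.card * ((p : ℝ) - 1)) - p * ((p : ℝ) - 1) * r k m) / (m * m) := by
    field_simp
  rw [e, div_le_iff₀ (by positivity)]
  linarith

open Classical in
/-- the lower bound for functions modulo `p` -/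
theorem funZ {k m p : ℕ} (hk : 3 ≤ k) (hm : 1 ≤ m) (hmp : m < p) (hkp : k ≤ p) [hp : Fact p.Prime]
    (f : ZMod p → ℝ) (hf0 : ∀ x, 0 ≤ f x) (hf1 : ∀ x, f x ≤ 1) :
    ((p : ℝ) - 1) / m * (∑ x, f x - (r k m : ℝ) / m * p) ≤
      ∑ w ∈ (univ : Finset (ZMod p × ZMod p)).filter (fun w => w.2 ≠ 0),
        ∏ i ∈ range k, f (w.1 + (i : ZMod p) * w.2) := by
  obtain ⟨W, hW⟩ : ∃ W : Finset (ZMod p) → ℝ,
      W = fun B => (∏ x ∈ B, f x) * ∏ x ∈ univ \ B, (1 - f x) := ⟨_, rfl⟩
  have hW0 : ∀ B, 0 ≤ W B := by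
    intro B
    rw [hW]
    exact mul_nonneg (prod_nonneg fun x _ => hf0 x)
      (prod_nonneg fun x _ => by linarith [hf1 x])
  have hsub : ∀ P : Finset (ZMod p), ∑ B ∈ (univ : Finset (ZMod p)).powerset,
      (if P ⊆ B then W B else 0) = ∏ x ∈ P, f x := by
    intro P
    rw [hW]
    exact sum_weights f P
  have hone : ∑ B ∈ (univ : Finset (ZMod p)).powerset, W B = 1 := by
    have := hsub ∅
    simpa using this
  have hcard : ∑ B ∈ (univ : Finset (ZMod p)).powerset, W B * B.card = ∑ x, f x := by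
    have e : ∀ B ∈ (univ : Finset (ZMod p)).powerset, W B * (B.card : ℝ) =
        ∑ x : ZMod p, (if ({x} : Finset (ZMod p)) ⊆ B then W B else 0) := by
      intro B _
      have : ∀ x : ZMod p, (({x} : Finset (ZMod p)) ⊆ B) = (x ∈ B) := by
        intro x; rw [singleton_subset_iff]
      simp only [this]
      rw [sum_ite_mem, univ_inter, sum_const, nsmul_eq_mul]
      ring
    rw [sum_congr rfl e, sum_comm]
    refine sum_congr rfl fun x _ => ?_
    rw [hsub, prod_singleton]
  have hap : ∑ B ∈ (univ : Finset (ZMod p)).powerset, W B * apCountZ k p B =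
      ∑ w ∈ (univ : Finset (ZMod p × ZMod p)).filter (fun w => w.2 ≠ 0),
        ∏ i ∈ range k, f (w.1 + (i : ZMod p) * w.2) := by
    have e : ∀ B ∈ (univ : Finset (ZMod p)).powerset, W B * (apCountZ k p B : ℝ) =
        ∑ w ∈ (univ : Finset (ZMod p × ZMod p)).filter (fun w => w.2 ≠ 0),
          (if (range k).image (fun i : ℕ => w.1 + (i : ZMod p) * w.2) ⊆ B then W B else 0) := by
      intro B _
      have e1 : apCountZ k p B = ((((univ : Finset (ZMod p × ZMod p)).filter
          (fun w => w.2 ≠ 0)).filter (fun w =>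
            (range k).image (fun i : ℕ => w.1 + (i : ZMod p) * w.2) ⊆ B)).card) := by
        unfold apCountZ
        rw [filter_filter]
        congr 1
        ext w
        simp only [mem_filter, mem_univ, true_and, image_subset_iff, mem_range]
      rw [e1, ← sum_filter, sum_const, nsmul_eq_mul]
      ring
    rw [sum_congr rfl e, sum_comm]
    refine sum_congr rfl fun w hw => ?_
    rw [hsub, prod_image]
    intro i hi j hj hij
    rw [mem_coe, mem_range] at hi hj
    have hw2 := (mem_filter.1 hw).2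
    have h1 : (i : ZMod p) * w.2 = (j : ZMod p) * w.2 := add_left_cancel hij
    have h2 : (i : ZMod p) = (j : ZMod p) := mul_right_cancel₀ hw2 h1
    rw [ZMod.natCast_eq_natCast_iff] at h2
    exact Nat.ModEq.eq_of_lt_of_lt h2 (by omega) (by omega)
  calc ((p : ℝ) - 1) / m * (∑ x, f x - (r k m : ℝ) / m * p)
      = ∑ B ∈ (univ : Finset (ZMod p)).powerset,
          W B * (((p : ℝ) - 1) / m * (B.card - (r k m : ℝ) / m * p)) := by
        have e : ∀ B ∈ (univ : Finset (ZMod p)).powerset,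
            W B * (((p : ℝ) - 1) / m * (B.card - (r k m : ℝ) / m * p)) =
            ((p : ℝ) - 1) / m * (W B * B.card) - ((p : ℝ) - 1) / m * ((r k m : ℝ) / m * p) * W B := by
          intro B _; ring
        rw [sum_congr rfl e, sum_sub_distrib, ← mul_sum, ← mul_sum, hcard, hone]
        ring
    _ ≤ ∑ B ∈ (univ : Finset (ZMod p)).powerset, W B * apCountZ k p B :=
        sum_le_sum fun B _ => mul_le_mul_of_nonneg_left (setZ hk hm hmp B) (hW0 B)
    _ = _ := hap

theorem part0 {k m N : ℕ} (hk : 3 ≤ k) (hm : 1 ≤ m) (hmN : m ≤ N) {A : Finset ℕ}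
    (hA : A ⊆ Icc 1 N) :
    (N : ℝ) / m * (A.card - 4 * ((r k m : ℝ) / m) * N) ≤ apCount k N A := by
  classical
  have hm0 : (0 : ℝ) < m := by exact_mod_cast hm
  rcases le_or_gt ((A.card : ℝ) - 4 * ((r k m : ℝ) / m) * N) 0 with h0 | h0
  · have h1 : (N : ℝ) / m * (A.card - 4 * ((r k m : ℝ) / m) * N) ≤ 0 :=
      mul_nonpos_of_nonneg_of_nonpos (by positivity) h0
    exact h1.trans (Nat.cast_nonneg _)
  · obtain ⟨p, hp, hp1, hp2⟩ := Nat.exists_prime_lt_and_le_two_mul (2 * N) (by omega)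
    have : Fact p.Prime := ⟨hp⟩
    have hc : (A.image (fun x : ℕ => (x : ZMod p))).card = A.card := by
      apply card_image_of_injOn
      intro x hx y hy h
      have h' : (x : ZMod p) = y := h
      rw [ZMod.natCast_eq_natCast_iff] at h'
      have h1 := mem_Icc.1 (hA hx)
      have h2 := mem_Icc.1 (hA hy)
      exact Nat.ModEq.eq_of_lt_of_lt h' (by omega) (by omega)
    have h1 := setZ (k := k) (m := m) hk hm (by omega) (A.image (fun x : ℕ => (x : ZMod p)))
    rw [hc] at h1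
    have h5 : apCountZ k p (A.image (fun x : ℕ => (x : ZMod p))) ≤ 2 * apCount k N A :=
      modp hk hp1 hA
    have h5' : (apCountZ k p (A.image (fun x : ℕ => (x : ZMod p))) : ℝ) ≤ 2 * apCount k N A := by
      exact_mod_cast h5
    have h6 : 2 * (N : ℝ) + 1 ≤ p := by exact_mod_cast hp1
    have h7 : (p : ℝ) ≤ 2 * (2 * N) := by exact_mod_cast hp2
    have h8 : (A.card : ℝ) - 4 * ((r k m : ℝ) / m) * N ≤ A.card - (r k m : ℝ) / m * p := by
      have : (r k m : ℝ) / m * p ≤ (r k m : ℝ) / m * (2 * (2 * N)) := by gcongr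
      linarith
    have h9 : 2 * (N : ℝ) / m ≤ ((p : ℝ) - 1) / m := by gcongr; linarith
    have h10 : 2 * (N : ℝ) / m * (A.card - 4 * ((r k m : ℝ) / m) * N) ≤
        ((p : ℝ) - 1) / m * (A.card - (r k m : ℝ) / m * p) :=
      mul_le_mul h9 h8 h0.le (le_trans (by positivity) h9)
    have h11 : 2 * (N : ℝ) / m * (A.card - 4 * ((r k m : ℝ) / m) * N) =
        2 * ((N : ℝ) / m * (A.card - 4 * ((r k m : ℝ) / m) * N)) := by ring
    rw [h11] at h10
    linarith

theorem part4 {k m p : ℕ} (hk : 3 ≤ k) (hm : 1 ≤ m) (hmp : 2 * m < p) [hp : Fact p.Prime] :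
    ∃ B : Finset (ZMod p), ((r k m : ℝ) / m) * p / 12 ≤ B.card ∧
      (apCountZ k p B : ℝ) ≤ (p : ℝ) / (2 * m) * B.card := by
  classical
  have hm0 : (0 : ℝ) < m := by exact_mod_cast hm
  have hp3 : 3 ≤ p := by omega
  have hp3' : (3 : ℝ) ≤ p := by exact_mod_cast hp3
  · have hodd : p % 2 = 1 := by
      rcases hp.out.eq_two_or_odd with h | h
      · omega
      · exact h
    obtain ⟨N, hN⟩ : ∃ N, N = (p - 1) / 2 := ⟨_, rfl⟩
    have hN2 : 2 * N + 1 = p := by omega
    have hN2' : 2 * (N : ℝ) + 1 = p := by exact_mod_cast hN2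
    obtain ⟨A, hA, h1, -, -, h4⟩ := part2 (k := k) (N := N) hk hm (by omega)
    have hc : (A.image (fun x : ℕ => (x : ZMod p))).card = A.card := by
      apply card_image_of_injOn
      intro x hx y hy h
      have h' : (x : ZMod p) = y := h
      rw [ZMod.natCast_eq_natCast_iff] at h'
      have h1 := mem_Icc.1 (hA hx)
      have h2 := mem_Icc.1 (hA hy)
      exact Nat.ModEq.eq_of_lt_of_lt h' (by omega) (by omega)
    refine ⟨A.image (fun x : ℕ => (x : ZMod p)), ?_, ?_⟩
    · rw [hc]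
      refine le_trans ?_ h1
      have h5 : (p : ℝ) ≤ 3 * N := by
        have : p ≤ 3 * N := by omega
        exact_mod_cast this
      have h6 : 0 ≤ (r k m : ℝ) / m := by positivity
      nlinarith
    · rw [hc]
      have h5 : apCountZ k p (A.image (fun x : ℕ => (x : ZMod p))) ≤ 2 * apCount k N A :=
        modp hk (by omega) hA
      have h5' : (apCountZ k p (A.image (fun x : ℕ => (x : ZMod p))) : ℝ) ≤ 2 * apCount k N A := by
        exact_mod_cast h5
      refine h5'.trans ?_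
      calc 2 * (apCount k N A : ℝ) ≤ 2 * ((N : ℝ) / (2 * m) * A.card) := by gcongr
        _ = (2 * N) / (2 * m) * A.card := by ring
        _ ≤ (p : ℝ) / (2 * m) * A.card := by gcongr; linarith

/-- arbitrary sets: a random affine map into `Z/p` -/
theorem host {k m : ℕ} (hk : 3 ≤ k) (hm : 1 ≤ m) (X : Finset ℤ) (P : Finset (ℤ × ℤ))
    (hP : ∀ q ∈ P, q.2 ≠ 0) (M : ℝ) (hM0 : 0 < M) (hM : (P.card : ℝ) ≤ M * X.card) :
    ∃ A : Finset ℤ, A ⊆ X ∧ ((r k m : ℝ) / m) * X.card / 24 ≤ A.card ∧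
      ((P.filter (fun q => ∀ i < k, q.1 + (i : ℤ) * q.2 ∈ A)).card : ℝ) ≤ 2 * M / m * A.card := by
  classical
  have hm0 : (0 : ℝ) < m := by exact_mod_cast hm
  obtain ⟨p, hpb, hp⟩ := Nat.exists_infinite_primes (2 * m + 1 + ∑ q ∈ P, q.2.natAbs)
  have : Fact p.Prime := ⟨hp⟩
  have hp3 : 3 ≤ p := by omega
  have hp3' : (3 : ℝ) ≤ p := by exact_mod_cast hp3
  have hd : ∀ q ∈ P, ((q.2 : ℤ) : ZMod p) ≠ 0 := by
    intro q hq h
    rw [ZMod.intCast_zmod_eq_zero_iff_dvd] at h
    have h1 := Int.natAbs_dvd_natAbs.2 h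
    rw [Int.natAbs_natCast] at h1
    have h2 := Nat.le_of_dvd (Int.natAbs_pos.2 (hP q hq)) h1
    have h3 : q.2.natAbs ≤ ∑ q ∈ P, q.2.natAbs :=
      Finset.single_le_sum (f := fun q : ℤ × ℤ => q.2.natAbs) (fun _ _ => Nat.zero_le _) hq
    omega
  obtain ⟨B, hB1, hB2⟩ := part4 (k := k) (m := m) (p := p) hk hm (by omega)
  obtain ⟨U, hU⟩ : ∃ U, U = (univ : Finset (ZMod p × ZMod p)).filter (fun u => u.2 ≠ 0) := ⟨_, rfl⟩
  have hUc : U.card = p * (p - 1) := by
    have : U = (univ : Finset (ZMod p)) ×ˢ ((univ : Finset (ZMod p)).erase 0) := by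
      ext u
      rw [hU, mem_filter, mem_product, mem_erase]
      simp
    rw [this, card_product, card_erase_of_mem (mem_univ _), card_univ, ZMod.card]
  have hPm : ((p - 1 : ℕ) : ℝ) = (p : ℝ) - 1 := by
    rw [Nat.cast_sub (by omega)]; simp
  obtain ⟨A, hA⟩ : ∃ A : ZMod p × ZMod p → Finset ℤ,
      A = fun u => X.filter (fun x : ℤ => u.1 + u.2 * (x : ZMod p) ∈ B) := ⟨_, rfl⟩
  obtain ⟨F, hF⟩ : ∃ F : ZMod p × ZMod p → Finset (ℤ × ℤ),
      F = fun u => P.filter (fun q => ∀ i < k, q.1 + (i : ℤ) * q.2 ∈ A u) := ⟨_, rfl⟩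
  have h1 : X.card * (B.card * (p - 1)) ≤ ∑ u ∈ U, (A u).card := by
    have e1 : ∑ u ∈ U, (A u).card =
        ∑ x ∈ X, (U.filter (fun u => u.1 + u.2 * (x : ZMod p) ∈ B)).card := by
      rw [hA]
      simp only [card_filter]
      exact sum_comm
    rw [e1]
    have e2 : X.card * (B.card * (p - 1)) = ∑ _x ∈ X, B.card * (p - 1) := by
      rw [sum_const, smul_eq_mul]
    rw [e2]
    refine sum_le_sum fun x _ => ?_
    have e3 : B.card * (p - 1) = (B ×ˢ ((univ : Finset (ZMod p)).erase 0)).card := by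
      rw [card_product, card_erase_of_mem (mem_univ _), card_univ, ZMod.card]
    rw [e3]
    refine card_le_card_of_injOn (fun w => (w.1 - w.2 * (x : ZMod p), w.2)) ?_ ?_
    · intro w hw
      rw [mem_coe, mem_product, mem_erase] at hw
      rw [mem_coe, mem_filter, hU, mem_filter]
      refine ⟨⟨mem_univ _, hw.2.1⟩, ?_⟩
      show w.1 - w.2 * (x : ZMod p) + w.2 * (x : ZMod p) ∈ B
      rw [sub_add_cancel]
      exact hw.1
    · intro w _ w' _ h
      simp only [Prod.mk.injEq] at h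
      obtain ⟨ha, hb⟩ := h
      rw [hb] at ha
      exact Prod.ext (sub_left_injective ha) hb
  have h2 : ∑ u ∈ U, (F u).card ≤ P.card * apCountZ k p B := by
    have e1 : ∑ u ∈ U, (F u).card =
        ∑ q ∈ P, (U.filter (fun u => ∀ i < k, q.1 + (i : ℤ) * q.2 ∈ A u)).card := by
      rw [hF]
      simp only [card_filter]
      exact sum_comm
    rw [e1]
    have e2 : P.card * apCountZ k p B = ∑ _q ∈ P, apCountZ k p B := by
      rw [sum_const, smul_eq_mul]
    rw [e2]
    refine sum_le_sum fun q hq => ?_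
    refine card_le_card_of_injOn
      (fun u => (u.1 + u.2 * (q.1 : ZMod p), u.2 * (q.2 : ZMod p))) ?_ ?_
    · intro u hu
      rw [mem_coe, mem_filter, hU, mem_filter] at hu
      obtain ⟨⟨-, hu0⟩, hu1⟩ := hu
      rw [mem_coe, mem_filter]
      refine ⟨mem_univ _, mul_ne_zero hu0 (hd q hq), fun i hi => ?_⟩
      have h3 := hu1 i hi
      rw [hA] at h3
      have h4 := (mem_filter.1 h3).2
      show u.1 + u.2 * (q.1 : ZMod p) + (i : ZMod p) * (u.2 * (q.2 : ZMod p)) ∈ B
      have e : u.1 + u.2 * (q.1 : ZMod p) + (i : ZMod p) * (u.2 * (q.2 : ZMod p)) =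
          u.1 + u.2 * ((q.1 + (i : ℤ) * q.2 : ℤ) : ZMod p) := by
        push_cast
        ring
      rw [e]
      exact h4
    · intro u _ u' _ h
      simp only [Prod.mk.injEq] at h
      obtain ⟨ha, hb⟩ := h
      have hb' : u.2 = u'.2 := mul_right_cancel₀ (hd q hq) hb
      rw [hb'] at ha
      exact Prod.ext (add_right_cancel ha) hb'
  -- choice of the map
  have h3 : ∑ _u ∈ U, (M / m * (((r k m : ℝ) / m) * X.card / 12)) ≤
      ∑ u ∈ U, (2 * M / m * ((A u).card : ℝ) - ((F u).card : ℝ)) := by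
    rw [sum_const, nsmul_eq_mul, hUc, sum_sub_distrib, ← mul_sum]
    have h1' : (X.card : ℝ) * (B.card * ((p : ℝ) - 1)) ≤ ∑ u ∈ U, ((A u).card : ℝ) := by
      rw [← hPm]; exact_mod_cast h1
    have h2' : ∑ u ∈ U, ((F u).card : ℝ) ≤ P.card * apCountZ k p B := by exact_mod_cast h2
    have h4 : (P.card : ℝ) * apCountZ k p B ≤ (M * X.card) * ((p : ℝ) / (2 * m) * B.card) := by
      gcongr
    have h5 : (M * X.card) * ((p : ℝ) / (2 * m) * B.card) ≤
        M / m * (X.card * (B.card * ((p : ℝ) - 1))) := by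
      have e : (M * X.card) * ((p : ℝ) / (2 * m) * B.card) =
          M / m * (X.card * (B.card * (p / 2))) := by field_simp
      rw [e]
      have : (p : ℝ) / 2 ≤ p - 1 := by linarith
      gcongr
    have h6 : 2 * M / m * (X.card * (B.card * ((p : ℝ) - 1))) ≤
        2 * M / m * ∑ u ∈ U, ((A u).card : ℝ) := by gcongr
    have h7 : ((p * (p - 1) : ℕ) : ℝ) * (M / m * (((r k m : ℝ) / m) * X.card / 12)) ≤
        M / m * (X.card * (B.card * ((p : ℝ) - 1))) := by
      rw [Nat.cast_mul, hPm]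
      have e : (p : ℝ) * ((p : ℝ) - 1) * (M / m * (((r k m : ℝ) / m) * X.card / 12)) =
          M / m * (X.card * ((((r k m : ℝ) / m) * p / 12) * ((p : ℝ) - 1))) := by ring
      rw [e]
      have hp1 : 0 ≤ (p : ℝ) - 1 := by linarith
      gcongr
    have e8 : 2 * M / m * (X.card * (B.card * ((p : ℝ) - 1))) =
        2 * (M / m * (X.card * (B.card * ((p : ℝ) - 1)))) := by ring
    linarith
  have hUne : U.Nonempty := by
    rw [← Finset.card_pos, hUc]
    exact Nat.mul_pos (by omega) (by omega)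
  obtain ⟨u, -, hu⟩ := Finset.exists_le_of_sum_le hUne h3
  have hMm : 0 < M / m := by positivity
  refine ⟨A u, by rw [hA]; exact filter_subset _ _, ?_, ?_⟩
  · have h4 : M / m * (((r k m : ℝ) / m) * X.card / 12) ≤ M / m * (2 * ((A u).card : ℝ)) := by
      have : (0 : ℝ) ≤ (F u).card := Nat.cast_nonneg _
      have e : 2 * M / m * ((A u).card : ℝ) = M / m * (2 * ((A u).card : ℝ)) := by ring
      linarith
    have h5 := le_of_mul_le_mul_left h4 hMm
    linarith
  · have h4 : 0 ≤ M / m * (((r k m : ℝ) / m) * X.card / 12) := by positivity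
    have h5 : ((F u).card : ℝ) ≤ 2 * M / m * ((A u).card : ℝ) := by linarith
    rw [hF] at h5
    exact h5

theorem r_mono {k : ℕ} (hk : 1 ≤ k) {M N : ℕ} (h : M ≤ N) : r k M ≤ r k N := by
  obtain ⟨A, hA, hA2, hA3⟩ := exists_opt (k := k) hk M
  rw [← hA3]
  exact card_le_r (hA.trans (Icc_subset_Icc_right h)) hA2

/-- **Sets with few progressions.** Let `k ≥ 3`; `ρ(m) = r k m / m` is the density of the largest
progression-free subsets of `{1, ..., m}`.
(1) Let `1 ≤ m ≤ N`. Every set `A ⊆ {1, ..., N}` contains at least `(N / m) (|A| - 4 ρ(m) N)`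
progressions; if `|A| > 8 ρ(m) N`, it contains more than `(N / 2m) |A|` progressions, with more than
`N / 2m` different common differences, one of which is larger than `N / 2m`.
(2) Some set `A ⊆ {1, ..., N}` with at least `ρ(m) N / 4` elements contains only progressions
with common difference at most `N / 2m`, hence at most `(N / 2m) |A|` progressions.
(3) So for every real `T` from `1/2` to `N / 2`, the largest size of a set `A ⊆ {1, ..., N}` with at
most `T |A|` progressions, with progressions with at most `T` common differences, or with progressions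
with common differences at most `T` only, is `ρ(m) N` with `m = ⌊N / 2T⌋`, up to a factor `8`
in both directions.
(4) Modulo a prime `p > m`, `p ≥ k`, for every `f` with values in `[0, 1]` the sum of
`f (x) f (x + d) ... f (x + (k - 1) d)` over all `x` and all `d ≠ 0` is at least
`((p - 1) / m) (∑ f - ρ(m) p)`; if `p > 2m`, some set `B` with at least `ρ(m) p / 12` elements contains
at most `(p / 2m) |B|` progressions.
(5) Let `X` be a finite set of integers, `P` a set of at most `M |X|` pairs `(a, d)`, `d ≠ 0`, `M > 0`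
and `m ≥ 1`. Some `A ⊆ X` with at least `ρ(m) |X| / 24` elements contains at most `(2 M / m) |A|` of
the progressions `a, a + d, ..., a + (k - 1) d` with `(a, d)` in `P`. So `{1, ..., N}` is, up to
constants, the worst of the sets of `N` integers, for all `T`. -/
theorem result (k : ℕ) (hk : 3 ≤ k) :
    -- (1)
    (∀ m N : ℕ, 1 ≤ m → m ≤ N → ∀ A : Finset ℕ, A ⊆ Icc 1 N →
      (N : ℝ) / m * (A.card - 4 * ((r k m : ℝ) / m) * N) ≤ apCount k N A ∧
      (8 * ((r k m : ℝ) / m) * N < A.card →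
        (N : ℝ) / (2 * m) * A.card < apCount k N A ∧ (N : ℝ) / (2 * m) < (diffs k N A).card ∧
          ∃ d ∈ diffs k N A, (N : ℝ) / (2 * m) < d)) ∧
    -- (2)
    (∀ m N : ℕ, 1 ≤ m → m ≤ N → ∃ A : Finset ℕ, A ⊆ Icc 1 N ∧
      ((r k m : ℝ) / m) * N / 4 ≤ A.card ∧ (∀ d ∈ diffs k N A, (d : ℝ) ≤ (N : ℝ) / (2 * m)) ∧
        ((diffs k N A).card : ℝ) ≤ (N : ℝ) / (2 * m) ∧
        (apCount k N A : ℝ) ≤ (N : ℝ) / (2 * m) * A.card) ∧
    -- (3)
    (∀ (N m : ℕ) (T : ℝ), 1 / 2 ≤ T → T ≤ N / 2 → m = ⌊N / (2 * T)⌋₊ →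
      (∀ A : Finset ℕ, A ⊆ Icc 1 N →
        ((apCount k N A : ℝ) ≤ T * A.card ∨ ((diffs k N A).card : ℝ) ≤ T ∨
          ∀ d ∈ diffs k N A, (d : ℝ) ≤ T) → (A.card : ℝ) ≤ 8 * ((r k m : ℝ) / m) * N) ∧
      (∃ A : Finset ℕ, A ⊆ Icc 1 N ∧ ((r k m : ℝ) / m) * N / 8 ≤ A.card ∧
        (apCount k N A : ℝ) ≤ T * A.card ∧ ((diffs k N A).card : ℝ) ≤ T ∧
          ∀ d ∈ diffs k N A, (d : ℝ) ≤ T)) ∧
    -- (4)
    (∀ (p m : ℕ) [Fact p.Prime], 1 ≤ m → m < p → k ≤ p →
      (∀ f : ZMod p → ℝ, (∀ x, 0 ≤ f x) → (∀ x, f x ≤ 1) →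
        ((p : ℝ) - 1) / m * (∑ x, f x - (r k m : ℝ) / m * p) ≤
          ∑ w ∈ (univ : Finset (ZMod p × ZMod p)).filter (fun w => w.2 ≠ 0),
            ∏ i ∈ range k, f (w.1 + (i : ZMod p) * w.2)) ∧
      (2 * m < p → ∃ B : Finset (ZMod p), ((r k m : ℝ) / m) * p / 12 ≤ B.card ∧
        (apCountZ k p B : ℝ) ≤ (p : ℝ) / (2 * m) * B.card)) ∧
    -- (5)
    (∀ (m : ℕ) (X : Finset ℤ) (P : Finset (ℤ × ℤ)) (M : ℝ), 1 ≤ m → 0 < M →
      (∀ q ∈ P, q.2 ≠ 0) → (P.card : ℝ) ≤ M * X.card →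
      ∃ A : Finset ℤ, A ⊆ X ∧ ((r k m : ℝ) / m) * X.card / 24 ≤ A.card ∧
        ((P.filter (fun q => ∀ i < k, q.1 + (i : ℤ) * q.2 ∈ A)).card : ℝ) ≤
          2 * M / m * A.card) := by
  refine ⟨fun m N hm hmN A hA => ⟨part0 hk hm hmN hA, fun hbig => part1 hk hm hmN hA hbig⟩,
    fun m N hm hmN => part2 hk hm hmN, ?_, fun p m _ hm hmp hkp =>
      ⟨fun f hf0 hf1 => ?_, fun h => part4 hk hm h⟩,
    fun m X P M hm hM0 hP hM => ?_⟩
  pick_goal 3
  · exact host hk hm X P hP M hM0 hM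
  swap
  · exact funZ (k := k) (m := m) hk hm hmp hkp f hf0 hf1
  intro N m T hT1 hT2 hm
  have hT0 : 0 < T := by linarith
  have hN1 : (1 : ℝ) ≤ N := by linarith
  have hx1 : 1 ≤ (N : ℝ) / (2 * T) := by
    rw [le_div_iff₀ (by positivity)]
    linarith
  have hxN : (N : ℝ) / (2 * T) ≤ N := by
    rw [div_le_iff₀ (by positivity)]
    nlinarith
  have hm1 : 1 ≤ m := by
    rw [hm]
    exact Nat.le_floor (by simpa using hx1)
  have hm0 : (0 : ℝ) < m := by exact_mod_cast hm1
  have hmx : (m : ℝ) ≤ (N : ℝ) / (2 * T) := by rw [hm]; exact Nat.floor_le (by positivity)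
  have hmN : m ≤ N := by exact_mod_cast hmx.trans hxN
  have hTm : T ≤ (N : ℝ) / (2 * m) := by
    rw [le_div_iff₀ (by positivity)] at hmx ⊢
    linarith
  refine ⟨?_, ?_⟩
  · intro A hA h
    by_contra hcon
    rw [not_le] at hcon
    obtain ⟨h1, h2, d, hd, h3⟩ := part1 hk hm1 hmN hA hcon
    rcases h with h | h | h
    · have : T * (A.card : ℝ) ≤ (N : ℝ) / (2 * m) * A.card := by gcongr
      linarith
    · linarith
    · have := h d hd
      linarith
  · obtain ⟨m', hm'⟩ : ∃ m' : ℕ, m' = ⌈(N : ℝ) / (2 * T)⌉₊ := ⟨_, rfl⟩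
    have hxm' : (N : ℝ) / (2 * T) ≤ m' := by rw [hm']; exact Nat.le_ceil _
    have hm'N : m' ≤ N := by rw [hm']; exact Nat.ceil_le.2 hxN
    have hmm' : m ≤ m' := by exact_mod_cast hmx.trans hxm'
    have hm'1 : 1 ≤ m' := hm1.trans hmm'
    have hm'0 : (0 : ℝ) < m' := by exact_mod_cast hm'1
    have hm'2 : m' ≤ 2 * m := by
      have h1 : m' ≤ m + 1 := by rw [hm', hm]; exact Nat.ceil_le_floor_add_one _
      omega
    have hTm' : (N : ℝ) / (2 * m') ≤ T := by
      rw [div_le_iff₀ (by positivity)] at hxm' ⊢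
      linarith
    obtain ⟨A, hA, h1, h2, h3, h4⟩ := part2 (k := k) hk hm'1 hm'N
    refine ⟨A, hA, ?_, ?_, h3.trans hTm', fun d hd => (h2 d hd).trans hTm'⟩
    · refine le_trans ?_ h1
      have e1 : (r k m : ℝ) ≤ r k m' := by exact_mod_cast r_mono (k := k) (by omega) hmm'
      have e2 : (m' : ℝ) ≤ 2 * m := by exact_mod_cast hm'2
      have e3 : (r k m : ℝ) / m ≤ 2 * ((r k m' : ℝ) / m') := by
        rw [div_le_iff₀ hm0]
        have h5 : (0 : ℝ) ≤ r k m' := Nat.cast_nonneg _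
        calc (r k m : ℝ) ≤ r k m' := e1
          _ = (r k m' : ℝ) / m' * m' := by field_simp
          _ ≤ (r k m' : ℝ) / m' * (2 * m) := by gcongr
          _ = _ := by ring
      have e4 : (r k m : ℝ) / m * N ≤ 2 * ((r k m' : ℝ) / m') * N := by gcongr
      linarith
    · refine h4.trans ?_
      gcongr

end Pool.Agent.Results.MP_0f71ae_nt.FewProgressions
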