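import Mathlib
import Pool.Agent.H24.HS.Asym
import Pool.Agent.H24.HS.Plane

/-! # Behrend's bound is optimal for constructions by points on hypersurfaces -/

set_option autoImplicit false

open Finset
open scoped Pointwise

namespace Pool.Agent.Results.MP_0f71ae_nt.HypersurfaceConstructions

/-- The real polynomial `P` has degree at most `k` and its zero set contains no line. -/
def NoLine (k : ℕ) {m : ℕ} (P : MvPolynomial (Fin m) ℝ) : Prop :=
  P.totalDegree ≤ k ∧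
    ∀ x u : Fin m → ℝ, u ≠ 0 → ∃ t : ℝ, MvPolynomial.eval (x + t • u) P ≠ 0

/-- Every line contains at most `t` points of `X`. -/
def FewCollinear (t : ℕ) {m : ℕ} (X : Set (Fin m → ℝ)) : Prop :=
  ∀ S : Finset (Fin m → ℝ), (S : Set (Fin m → ℝ)) ⊆ X → Collinear ℝ (S : Set (Fin m → ℝ)) →
    S.card ≤ t

/-- `ψ` maps `A` to `ℝ ^ m`; `a + b = c + d` implies `ψ a + ψ b = ψ c + ψ d` for `a, b, c, d` in
`A`; and every point is the image of at most `F` elements of `A`. -/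
def Embeds (F : ℝ) {m : ℕ} (A : Finset ℤ) (ψ : ℤ → Fin m → ℝ) : Prop :=
  IsAddFreimanHom 2 (A : Set ℤ) Set.univ ψ ∧
    ∀ v : Fin m → ℝ, (({a : ℤ | a ∈ A ∧ ψ a = v}.ncard : ℕ) : ℝ) ≤ F

theorem toCol {t m : ℕ} {X : Finset (Fin m → ℝ)} (h : FewCollinear t (X : Set (Fin m → ℝ))) :
    H24.HS.FewCol t X := by
  intro S hS a v hv
  apply h S (Finset.coe_subset.2 hS)
  rw [collinear_iff_exists_forall_eq_smul_vadd]
  refine ⟨a, v, fun y hy => ?_⟩
  obtain ⟨c, hc⟩ := hv y (Finset.mem_coe.1 hy)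
  exact ⟨c, by rw [hc, vadd_eq_add, add_comm]⟩

theorem ofCol {t m : ℕ} {X : Finset (Fin m → ℝ)} (h : H24.HS.FewCol t X) :
    FewCollinear t (X : Set (Fin m → ℝ)) := by
  intro S hS hcol
  rw [collinear_iff_exists_forall_eq_smul_vadd] at hcol
  obtain ⟨a, v, hav⟩ := hcol
  apply h S (Finset.coe_subset.1 hS) a v
  intro y hy
  obtain ⟨r, hr⟩ := hav y (Finset.mem_coe.2 hy)
  exact ⟨r, by rw [hr, vadd_eq_add, add_comm]⟩

theorem sphere_noLine (m : ℕ) (ρ : ℝ) :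
    NoLine 2 (∑ i : Fin m, MvPolynomial.X i ^ 2 - MvPolynomial.C ρ) := by
  constructor
  · refine (MvPolynomial.totalDegree_sub _ _).trans (max_le ?_ ?_)
    · refine (MvPolynomial.totalDegree_finsetSum _ _).trans (Finset.sup_le fun i _ => ?_)
      rw [MvPolynomial.totalDegree_X_pow]
    · rw [MvPolynomial.totalDegree_C]
      exact Nat.zero_le 2
  · intro x u hu
    by_contra hcon
    push Not at hcon
    have hev : ∀ t : ℝ, MvPolynomial.eval (x + t • u)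
        (∑ i : Fin m, MvPolynomial.X i ^ 2 - MvPolynomial.C ρ) =
        ∑ i, (x i + t * u i) ^ 2 - ρ := by
      intro t
      rw [map_sub, map_sum, MvPolynomial.eval_C]
      congr 1
      refine Finset.sum_congr rfl fun i _ => ?_
      rw [map_pow, MvPolynomial.eval_X]
      rfl
    have h0 := hcon 0
    have h1 := hcon 1
    have h2 := hcon (-1)
    rw [hev] at h0 h1 h2
    have h3 : ∑ i, (x i + 1 * u i) ^ 2 + ∑ i, (x i + (-1) * u i) ^ 2 =
        2 * ∑ i, (x i + 0 * u i) ^ 2 + 2 * ∑ i, u i ^ 2 := by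
      rw [Finset.mul_sum, Finset.mul_sum, ← Finset.sum_add_distrib, ← Finset.sum_add_distrib]
      exact Finset.sum_congr rfl fun i _ => by ring
    have h4 : ∑ i, u i ^ 2 = 0 := by linarith
    apply hu
    funext i
    have h5 := (Finset.sum_eq_zero_iff_of_nonneg fun i _ => sq_nonneg (u i)).1 h4 i
      (Finset.mem_univ _)
    exact pow_eq_zero_iff (by norm_num) |>.1 h5

theorem sphere_ap {m : ℕ} {ρ : ℝ} {A : Finset ℤ} {X : Finset (Fin m → ℝ)} {ψ : ℤ → Fin m → ℝ}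
    (hX : ∀ x ∈ X, ∑ i, x i ^ 2 = ρ)
    (hψ : IsAddFreimanIso 2 (A : Set ℤ) (X : Set (Fin m → ℝ)) ψ) : ThreeAPFree (A : Set ℤ) := by
  intro a ha b hb c hc h
  have h1 : ψ a + ψ c = ψ b + ψ b := (hψ.add_eq_add ha hc hb hb).2 h
  have ea := hX _ (Finset.mem_coe.1 (hψ.bijOn.mapsTo ha))
  have eb := hX _ (Finset.mem_coe.1 (hψ.bijOn.mapsTo hb))
  have ec := hX _ (Finset.mem_coe.1 (hψ.bijOn.mapsTo hc))
  have h2 : ∑ i, (ψ a i - ψ c i) ^ 2 = 0 := by
    have h3 : ∑ i, (ψ a i - ψ c i) ^ 2 =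
        2 * ∑ i, ψ a i ^ 2 + 2 * ∑ i, ψ c i ^ 2 - 4 * ∑ i, ψ b i ^ 2 := by
      rw [Finset.mul_sum, Finset.mul_sum, Finset.mul_sum, ← Finset.sum_add_distrib,
        ← Finset.sum_sub_distrib]
      refine Finset.sum_congr rfl fun i _ => ?_
      have h4 : ψ a i + ψ c i = ψ b i + ψ b i := congrFun h1 i
      have h5 : (ψ a i + ψ c i) ^ 2 = (ψ b i + ψ b i) ^ 2 := by rw [h4]
      linarith
    rw [h3, ea, eb, ec]; ring
  have h3 : ψ a = ψ c := by
    funext i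
    have h5 := (Finset.sum_eq_zero_iff_of_nonneg fun i _ => sq_nonneg (ψ a i - ψ c i)).1 h2 i
      (Finset.mem_univ _)
    have h6 := pow_eq_zero_iff (by norm_num) |>.1 h5
    linarith
  have hac : a = c := hψ.bijOn.injOn ha hc h3
  rw [← hac] at h
  omega

/-- **Behrend's bound is optimal for constructions by points on hypersurfaces.**
(1) The additive energy of a finite set `X` of points in `ℝ ^ m` which is covered by the zero sets
of `T` polynomials of degree at most `k` which contain no lines is at most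
`2 T |X| ^ 3 exp (- c √(log |X| / 2 ^ k))`, in all dimensions `m`.
(2) If at most `t` points of `X` are on a line, the energy is at most
`2 |X| ^ 3 exp (- c min (√(log |X| / (1 + log (1 + log |X|)))) (log |X| / log t))`.
(3) Let `A ⊆ {1, …, N}` have a Freiman homomorphism to some `ℝ ^ m` with fibres of at most
`N ^ (1 - ε)` elements, such that the image is covered by `T ≤ exp (c √(log N))` hypersurfaces of
degree at most `k` without lines. Then `|A| ≤ N exp (- c √(log N))` for large `N`, with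
`c = c(k, ε) > 0`.
(4) If instead at most `exp (√(log N))` points of the image are on a line, then
`|A| ≤ N exp (- c √(log N / log (log N)))`.
(5) Spheres contain no lines, and for all `N ≥ 1` there is a set `A ⊆ {1, …, N}` without three-term
progressions with at least `N exp (- 4 √(log N))` elements which is Freiman isomorphic to a subset
of a sphere (Behrend).
(6) For all `n ≥ 1` there are `n` points in the plane, no three on a line, whose sumset has at most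
`8 n exp (40 √(log n))` elements. -/
theorem result :
    -- (1)
    (∃ c : ℝ, 0 < c ∧ ∀ (m k T : ℕ) (P : Fin T → MvPolynomial (Fin m) ℝ)
      (X : Finset (Fin m → ℝ)), (∀ i, NoLine k (P i)) →
      (∀ x ∈ X, ∃ i, MvPolynomial.eval x (P i) = 0) →
      ((X.addEnergy X : ℕ) : ℝ) ≤
        2 * T * X.card ^ 3 * Real.exp (-(c * √(Real.log X.card / 2 ^ k)))) ∧
    -- (2)
    (∃ c : ℝ, 0 < c ∧ ∀ (m t : ℕ) (X : Finset (Fin m → ℝ)), 2 ≤ t →
      FewCollinear t (X : Set (Fin m → ℝ)) →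
      ((X.addEnergy X : ℕ) : ℝ) ≤ 2 * X.card ^ 3 * Real.exp (-(c *
        min (√(Real.log X.card / (1 + Real.log (1 + Real.log X.card))))
          (Real.log X.card / Real.log t)))) ∧
    -- (3)
    (∀ (k : ℕ) (ε : ℝ), 0 < ε → ∃ c : ℝ, 0 < c ∧ ∃ N₀ : ℕ, ∀ N : ℕ, N₀ ≤ N →
      ∀ (m T : ℕ) (A : Finset ℤ) (ψ : ℤ → Fin m → ℝ) (P : Fin T → MvPolynomial (Fin m) ℝ),
      A ⊆ Finset.Icc 1 (N : ℤ) → Embeds ((N : ℝ) ^ (1 - ε)) A ψ →
      (T : ℝ) ≤ Real.exp (c * √(Real.log N)) → (∀ i, NoLine k (P i)) →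
      (∀ a ∈ A, ∃ i, MvPolynomial.eval (ψ a) (P i) = 0) →
      (A.card : ℝ) ≤ N * Real.exp (-(c * √(Real.log N)))) ∧
    -- (4)
    (∀ ε : ℝ, 0 < ε → ∃ c : ℝ, 0 < c ∧ ∃ N₀ : ℕ, ∀ N : ℕ, N₀ ≤ N →
      ∀ (m t : ℕ) (A : Finset ℤ) (ψ : ℤ → Fin m → ℝ),
      A ⊆ Finset.Icc 1 (N : ℤ) → Embeds ((N : ℝ) ^ (1 - ε)) A ψ →
      (t : ℝ) ≤ Real.exp (√(Real.log N)) → FewCollinear t (ψ '' (A : Set ℤ)) →
      (A.card : ℝ) ≤ N * Real.exp (-(c * √(Real.log N / Real.log (Real.log N))))) ∧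
    -- (5)
    ((∀ (m : ℕ) (ρ : ℝ), NoLine 2 (∑ i : Fin m, MvPolynomial.X i ^ 2 - MvPolynomial.C ρ)) ∧
      ∀ N : ℕ, 1 ≤ N → ∃ (m : ℕ) (ρ : ℝ) (A : Finset ℤ) (X : Finset (Fin m → ℝ))
        (ψ : ℤ → Fin m → ℝ), A ⊆ Finset.Icc 1 (N : ℤ) ∧ ThreeAPFree (A : Set ℤ) ∧
        (∀ x ∈ X, ∑ i, x i ^ 2 = ρ) ∧
        IsAddFreimanIso 2 (A : Set ℤ) (X : Set (Fin m → ℝ)) ψ ∧
        N * Real.exp (-(4 * √(Real.log N))) ≤ A.card) ∧
    -- (6)
    (∀ n : ℕ, 1 ≤ n → ∃ Y : Finset (Fin 2 → ℝ), Y.card = n ∧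
      FewCollinear 2 (Y : Set (Fin 2 → ℝ)) ∧
      ((Y + Y).card : ℝ) ≤ 8 * n * Real.exp (40 * √(Real.log n))) := by
  refine ⟨?_, ?_, ?_, ?_, ⟨sphere_noLine, ?_⟩, ?_⟩
  · refine ⟨1 / 2500, by norm_num, ?_⟩
    intro m k T P X hP hX
    exact H24.HS.energy_hyp X (k := k) (f := fun i x => MvPolynomial.eval x (P i))
      (fun i => H24.HS.hyp_eval (hP i).1 (hP i).2) hX
  · refine ⟨1 / (2 * 10 ^ 12), by norm_num, ?_⟩
    intro m t X ht hX
    exact H24.HS.energy_few X ht (toCol hX)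
  · intro k ε hε
    obtain ⟨c, hc, N₀, h⟩ := H24.HS.asym_hyp k (ε := min ε 1) (lt_min hε one_pos) (min_le_right _ _)
    refine ⟨c, hc, max N₀ 1, ?_⟩
    intro N hN m T A ψ P hA hψ hT hP hz
    have hN1 : (1 : ℝ) ≤ N := by exact_mod_cast (le_max_right N₀ 1).trans hN
    exact h N ((le_max_left _ _).trans hN) (Fin m → ℝ) A ψ T
      (fun i x => MvPolynomial.eval x (P i)) hA hψ.1
      (fun v => (hψ.2 v).trans (Real.rpow_le_rpow_of_exponent_le hN1 (by
        have := min_le_left ε 1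
        linarith))) hT (fun i => H24.HS.hyp_eval (hP i).1 (hP i).2) hz
  · intro ε hε
    obtain ⟨c, hc, N₀, h⟩ := H24.HS.asym_few (ε := min ε 1) (lt_min hε one_pos) (min_le_right _ _)
    refine ⟨c, hc, max N₀ 1, ?_⟩
    intro N hN m t A ψ hA hψ ht hcol
    have hN1 : (1 : ℝ) ≤ N := by exact_mod_cast (le_max_right N₀ 1).trans hN
    refine h N ((le_max_left _ _).trans hN) (Fin m → ℝ) A ψ t hA hψ.1
      (fun v => (hψ.2 v).trans (Real.rpow_le_rpow_of_exponent_le hN1 (by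
        have := min_le_left ε 1
        linarith))) ht ?_
    rintro S hS ⟨a, v, hv⟩
    apply hcol S hS
    rw [collinear_iff_exists_forall_eq_smul_vadd]
    refine ⟨a, v, fun y hy => ?_⟩
    obtain ⟨r, hr⟩ := hv y (Finset.mem_coe.1 hy)
    exact ⟨r, by rw [hr, vadd_eq_add, add_comm]⟩
  · intro N hN
    obtain ⟨m, ρ, A, X, ψ, hA, hX, hψ, hAc⟩ := H24.HS.behrend_sets hN
    refine ⟨m, ρ, A, X, ψ, hA, sphere_ap hX hψ, hX, hψ, ?_⟩
    rw [← neg_mul]
    exact hAc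
  · intro n hn
    obtain ⟨Y, h1, h2, h3⟩ := H24.HS.plane_sets hn
    exact ⟨Y, h1, ofCol h2, h3⟩

end Pool.Agent.Results.MP_0f71ae_nt.HypersurfaceConstructions
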