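import Pool.Agent.H24.SF.Main
import Pool.Agent.H24.SF.Color
import Pool.Agent.H24.SF.Sharp
set_option autoImplicit false

namespace Pool.Agent.Results.MP_0f71ae_nt.SparseFamilies

open Finset

universe u

open Classical in
/-- `r k N` is the largest size of a subset of `{1, ..., N}` without progressions
`a, a + d, ..., a + (k - 1) d`, `d ≥ 1`; so `r 3 N` is the function of the question. -/
noncomputable def r (k N : ℕ) : ℕ :=
  ((Icc 1 N).powerset.filter
    (fun A : Finset ℕ => ∀ a d : ℕ, 1 ≤ d → ¬ ∀ i < k, a + i * d ∈ A)).sup card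

/-- `A` contains none of the progressions `a, a + d, ..., a + (k - 1) d`, `(a, d) ∈ P` -/
def Avoids {G : Type*} [AddCommGroup G] (k : ℕ) (P : Finset (G × G)) (A : Finset G) : Prop :=
  ∀ q ∈ P, ¬ ∀ i < k, q.1 + i • q.2 ∈ A

/-- `chi k m` is the least number of colours for which `{1, ..., m}` can be coloured without
monochromatic progressions of length `k`. -/
noncomputable def chi (k m : ℕ) : ℕ :=
  sInf {c | ∃ f : ℕ → ℕ, (∀ n, f n < c) ∧
    ∀ a d : ℕ, 1 ≤ a → 1 ≤ d → a + (k - 1) * d ≤ m → ¬ ∀ i < k, f (a + i * d) = f a}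

/-- **Sparse families of progressions.** Let `k ≥ 3` and `m ≥ 1`.
(1) Let `X` be a finite set in a torsion-free abelian group and `P` a set of at most `m |X|`
progressions of length `k`. Some subset of `X` of size at least `(r k m / (8 m)) |X|` contains no
member of `P`. More generally this holds with nonnegative weights `w`, if the sum of `w a` over the
members of `P` (`a` the first term) is at most `m` times the weight of `X`.
(2) The same in `ℤ/p` for the primes `p ≥ 12 m`, with `12` instead of `8`.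
(3) Up to the factor `16` this is sharp for all `n ≥ m`: some set of `n` integers contains at most
`m n` progressions of length `k` in all, and its subsets without progressions of length `k` have at
most `2 (r k m / m) n` elements.
(4) In particular for each set `D` of `m` differences each finite set `X` has a subset of
size at least `(r k m / (8 m)) |X|` without progressions of length `k` and difference in `D`, and
`D = {1, ..., m}` is the worst case up to the factor `16`: for `n ≥ m` the subsets of `{1, ..., n}`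
without such progressions have at most `2 (r k m / m) n` elements.
(5) For each set `D` of `m` nonzero integers `ℤ` can be coloured with `4 chi k m` colours without
monochromatic progressions of length `k` and difference in `D`; for `D = {1, ..., m}` this takes at
least `chi k m` colours. -/
theorem result (k : ℕ) (hk : 3 ≤ k) (m : ℕ) (hm : 1 ≤ m) :
    -- (1)
    (∀ (G : Type u) [AddCommGroup G] [IsAddTorsionFree G] (X : Finset G) (P : Finset (G × G)),
      (∀ q ∈ P, q.2 ≠ 0) →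
      (P.card ≤ m * X.card → ∃ A ⊆ X, Avoids k P A ∧ (r k m : ℝ) / (8 * m) * X.card ≤ A.card) ∧
      ∀ w : G → ℝ, (∀ x, 0 ≤ w x) → ∑ q ∈ P, w q.1 ≤ m * ∑ x ∈ X, w x →
        ∃ A ⊆ X, Avoids k P A ∧ (r k m : ℝ) / (8 * m) * ∑ x ∈ X, w x ≤ ∑ x ∈ A, w x) ∧
    -- (2)
    (∀ p : ℕ, p.Prime → 12 * m ≤ p → ∀ (X : Finset (ZMod p)) (P : Finset (ZMod p × ZMod p)),
      (∀ q ∈ P, q.2 ≠ 0) →
      (P.card ≤ m * X.card → ∃ A ⊆ X, Avoids k P A ∧ (r k m : ℝ) / (12 * m) * X.card ≤ A.card) ∧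
      ∀ w : ZMod p → ℝ, (∀ x, 0 ≤ w x) → ∑ q ∈ P, w q.1 ≤ m * ∑ x ∈ X, w x →
        ∃ A ⊆ X, Avoids k P A ∧ (r k m : ℝ) / (12 * m) * ∑ x ∈ X, w x ≤ ∑ x ∈ A, w x) ∧
    -- (3)
    (∀ n : ℕ, m ≤ n → ∃ (X : Finset ℤ) (P : Finset (ℤ × ℤ)), X.card = n ∧
      (∀ a d : ℤ, (a, d) ∈ P ↔ 0 < d ∧ ∀ i < k, a + i • d ∈ X) ∧ P.card ≤ m * n ∧
      ∀ A ⊆ X, Avoids k P A → (A.card : ℝ) ≤ 2 * ((r k m : ℝ) / m) * n) ∧
    -- (4)
    ((∀ (G : Type u) [AddCommGroup G] [IsAddTorsionFree G] (D X : Finset G), (0 : G) ∉ D →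
        D.card = m → ∃ A ⊆ X, (∀ a : G, ∀ d ∈ D, ¬ ∀ i < k, a + i • d ∈ A) ∧
          (r k m : ℝ) / (8 * m) * X.card ≤ A.card) ∧
      ∀ n : ℕ, m ≤ n → ∀ A ⊆ Icc (1 : ℤ) n,
        (∀ a : ℤ, ∀ d ∈ Icc (1 : ℤ) m, ¬ ∀ i < k, a + i • d ∈ A) →
        (A.card : ℝ) ≤ 2 * ((r k m : ℝ) / m) * n) ∧
    -- (5)
    (∀ D : Finset ℤ, (0 : ℤ) ∉ D → D.card = m → ∃ f : ℤ → ℕ, (∀ n, f n < 4 * chi k m) ∧
      ∀ a : ℤ, ∀ d ∈ D, ¬ ∀ i < k, f (a + i • d) = f a) ∧
    ∀ (c : ℕ) (f : ℤ → ℕ), (∀ n, f n < c) →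
      (∀ a : ℤ, ∀ d ∈ Icc (1 : ℤ) m, ¬ ∀ i < k, f (a + i • d) = f a) → chi k m ≤ c := by
  classical
  have hm0 : (0 : ℝ) < m := by exact_mod_cast hm
  have conv : ∀ {a n : ℕ}, a * m ≤ 2 * n * r k m → (a : ℝ) ≤ 2 * ((r k m : ℝ) / m) * n := by
    intro a n h
    have h1 : (a : ℝ) * m ≤ 2 * n * r k m := by exact_mod_cast h
    have e : 2 * ((r k m : ℝ) / m) * n = 2 * n * r k m / m := by ring
    rw [e, le_div_iff₀ hm0]
    exact h1
  have main : ∀ (G : Type u) [AddCommGroup G] [IsAddTorsionFree G] (X : Finset G)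
      (P : Finset (G × G)), (∀ q ∈ P, q.2 ≠ 0) → P.card ≤ m * X.card →
      ∃ A ⊆ X, Avoids k P A ∧ (r k m : ℝ) / (8 * m) * X.card ≤ A.card := by
    intro G _ _ X P hP hc
    obtain ⟨A, hA, hA1, hA2⟩ := H24.SF.main (G := G) hk hm X P (w := fun _ => 1)
      (fun _ => zero_le_one) hP (by simpa using (by exact_mod_cast hc : (P.card : ℝ) ≤ m * X.card))
    refine ⟨A, hA, hA1, ?_⟩
    simp only [Finset.sum_const, nsmul_eq_mul, mul_one] at hA2
    exact hA2
  refine ⟨?_, ?_, ?_, ⟨?_, ?_⟩, ?_, ?_⟩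
  · intro G _ _ X P hP
    refine ⟨main G X P hP, ?_⟩
    intro w hw hs
    exact H24.SF.main (G := G) hk hm X P hw hP hs
  · intro p hp h12 X P hP
    have : Fact p.Prime := ⟨hp⟩
    have hp0 : (0 : ℝ) < p := by exact_mod_cast hp.pos
    set W := p / (2 * m) with hWdef
    set L := W / 2 with hLdef
    have hL : 2 * L ≤ W := Nat.mul_div_le W 2
    have hW : 2 * (m * W) ≤ p := by
      have := Nat.mul_div_le p (2 * m)
      rw [← hWdef] at this
      calc 2 * (m * W) = 2 * m * W := by ring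
        _ ≤ p := this
    have hLp : (p : ℝ) / (6 * m) ≤ L := by
      have h1 : p < 2 * m * (W + 1) := by
        have := Nat.lt_mul_div_succ p (show 0 < 2 * m by omega)
        rw [← hWdef] at this
        exact this
      have h2 : W < 2 * (L + 1) := by omega
      have h3 : p < 2 * m * (2 * (L + 1)) := lt_of_lt_of_le h1 (Nat.mul_le_mul_left _ h2)
      have h4 : (p : ℝ) < 2 * m * (2 * (L + 1)) := by exact_mod_cast h3
      have h5 : (12 : ℝ) * m ≤ p := by exact_mod_cast h12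
      rw [div_le_iff₀ (by positivity)]
      linarith
    have key : ∀ w : ZMod p → ℝ, (∀ x, 0 ≤ w x) → ∑ q ∈ P, w q.1 ≤ m * ∑ x ∈ X, w x →
        ∃ A ⊆ X, Avoids k P A ∧ (r k m : ℝ) / (12 * m) * ∑ x ∈ X, w x ≤ ∑ x ∈ A, w x := by
      intro w hw hs
      obtain ⟨A, hA, hA1, hA2⟩ := H24.SF.prime_step (p := p) (k := k) (m := m) (W := W) (L := L) hk
        hL hW (fun x : ZMod p => x) X P hw hP (fun q _ i _ => rfl) hs
      refine ⟨A, hA, hA1, le_trans ?_ hA2⟩
      have h7 : (r k m : ℝ) / (12 * m) = (r k m : ℝ) * (p / (6 * m)) / (2 * p) := by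
        field_simp
        ring
      rw [h7]
      have hs0 : 0 ≤ ∑ x ∈ X, w x := Finset.sum_nonneg fun x _ => hw x
      refine mul_le_mul_of_nonneg_right ?_ hs0
      refine div_le_div_of_nonneg_right ?_ (by positivity)
      exact mul_le_mul_of_nonneg_left hLp (Nat.cast_nonneg _)
    refine ⟨fun hc => ?_, key⟩
    obtain ⟨A, hA, hA1, hA2⟩ := key (fun _ => 1) (fun _ => zero_le_one)
      (by simpa using (by exact_mod_cast hc : (P.card : ℝ) ≤ m * X.card))
    refine ⟨A, hA, hA1, ?_⟩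
    simp only [Finset.sum_const, nsmul_eq_mul, mul_one] at hA2
    exact hA2
  · intro n hmn
    obtain ⟨X, P, h1, h2, h3, h4⟩ := H24.SF.sharp (k := k) hk hm hmn
    exact ⟨X, P, h1, h2, h3, fun A hA hA' => conv (h4 A hA hA')⟩
  · intro G _ _ D X hD hDm
    obtain ⟨A, hA, hA1, hA2⟩ := main G X (X ×ˢ D) (by
      intro q hq h
      rw [Finset.mem_product] at hq
      rw [h] at hq
      exact hD hq.2) (by rw [Finset.card_product, hDm, mul_comm])
    refine ⟨A, hA, fun a d hd h => hA1 (a, d) ?_ h, hA2⟩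
    have h0 := h 0 (by omega)
    rw [zero_smul, add_zero] at h0
    exact Finset.mem_product.2 ⟨hA h0, hd⟩
  · intro n hmn A hA hAP
    refine conv (H24.SF.sharp_diff hk hm hmn A hA ?_)
    intro a d h1 h2
    exact hAP a d (Finset.mem_Icc.2 ⟨h1, h2⟩)
  · intro D hD hDm
    obtain ⟨f, hf, hf2⟩ := H24.SF.color hk D hD
    rw [hDm] at hf
    refine ⟨f, hf, fun a d hd h => hf2 a d hd fun i hi => ?_⟩
    have := h i hi
    rwa [nsmul_eq_mul] at this
  · intro c f hf hf2
    refine Nat.sInf_le ⟨fun n => f n, fun n => hf n, ?_⟩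
    intro a d _ hd had h
    refine hf2 a d ?_ fun i hi => ?_
    · rw [Finset.mem_Icc]
      have h1 : 1 * d ≤ (k - 1) * d := Nat.mul_le_mul_right _ (by omega)
      constructor
      · exact_mod_cast hd
      · have : d ≤ m := by omega
        exact_mod_cast this
    · have := h i hi
      have e : ((a : ℤ) + i • (d : ℤ)) = ((a + i * d : ℕ) : ℤ) := by
        rw [nsmul_eq_mul]; push_cast; ring
      rw [e]
      exact this

end Pool.Agent.Results.MP_0f71ae_nt.SparseFamilies
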